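import Pool.Agent.W591.GM.One

/-!
Summation over the lower left entry `c`.
-/

namespace Pool.Agent.W591.GM

open Finset

theorem triv_le (c D M : ℕ) (hc : 1 ≤ c) (hcD : c ≤ D) (a₀ b₀ d₀ : ℤ) :
    ((setc c D M a₀ b₀ d₀).card : ℝ) ≤ 9 * D := by
  have hcr : (1 : ℝ) ≤ c := by exact_mod_cast hc
  have hcDr : (c : ℝ) ≤ D := by exact_mod_cast hcD
  have h1 : (setc c D M a₀ b₀ d₀).card =
      ∑ a ∈ Icc (-(c : ℤ)) c, ((setc c D M a₀ b₀ d₀).filter (fun p => p.1 = a)).card := by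
    apply Finset.card_eq_sum_card_fiberwise
    intro p hp
    rw [mem_coe] at hp
    unfold setc at hp
    rw [mem_filter, mem_product] at hp
    exact hp.1.1
  have h2 : ∀ a ∈ Icc (-(c : ℤ)) c,
      (((setc c D M a₀ b₀ d₀).filter (fun p => p.1 = a)).card : ℝ) ≤ 3 * D / c := by
    intro a _
    by_cases hne : ((setc c D M a₀ b₀ d₀).filter (fun p => p.1 = a)).Nonempty
    · obtain ⟨p₀, hp₀⟩ := hne
      have hmem : ∀ p ∈ (setc c D M a₀ b₀ d₀).filter (fun p => p.1 = a),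
          (c : ℤ) ∣ a * p.2 - 1 ∧ p.2 ∈ Icc (-(D : ℤ)) D := by
        intro p hp
        rw [mem_filter] at hp
        obtain ⟨hp1, hp2⟩ := hp
        unfold setc at hp1
        rw [mem_filter, mem_product] at hp1
        refine ⟨?_, hp1.1.2⟩
        have h3 : (c : ℤ) ∣ ((c * M : ℕ) : ℤ) := by push_cast; exact dvd_mul_right _ _
        obtain ⟨k, hk⟩ := (hp1.2.2.2.of_dvd h3).dvd
        refine ⟨b₀ - k, ?_⟩
        rw [← hp2]
        linarith
      have h4 : ((setc c D M a₀ b₀ d₀).filter (fun p => p.1 = a)).card ≤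
          ((Icc (-(D : ℤ)) D).filter (fun d : ℤ => d ≡ p₀.2 [ZMOD c])).card := by
        apply Finset.card_le_card_of_injOn Prod.snd
        · intro p hp
          rw [mem_coe] at hp
          obtain ⟨h5, h6⟩ := hmem p hp
          obtain ⟨h7, h8⟩ := hmem p₀ hp₀
          rw [mem_coe, mem_filter]
          refine ⟨h6, ?_⟩
          apply Int.ModEq.symm
          rw [Int.modEq_iff_dvd]
          have h9 : (c : ℤ) ∣ a * (p.2 - p₀.2) := by
            have := dvd_sub h5 h7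
            have e : a * p.2 - 1 - (a * p₀.2 - 1) = a * (p.2 - p₀.2) := by ring
            rwa [e] at this
          have h10 : IsCoprime (c : ℤ) a := by
            obtain ⟨k, hk⟩ := h7
            exact ⟨-k, p₀.2, by linarith⟩
          exact h10.dvd_of_dvd_mul_left h9
        · intro p hp p' hp' heq
          rw [mem_coe, mem_filter] at hp hp'
          exact Prod.ext (by rw [hp.2, hp'.2]) heq
      have h5 : (((setc c D M a₀ b₀ d₀).filter (fun p => p.1 = a)).card : ℝ) ≤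
          ((((Icc (-(D : ℤ)) D).filter (fun d : ℤ => d ≡ p₀.2 [ZMOD c])).card : ℕ) : ℝ) := by
        exact_mod_cast h4
      refine h5.trans ((card_prog c (by omega) p₀.2 _ _ (by omega)).trans ?_)
      push_cast
      have h6 : (1 : ℝ) ≤ D / c := by rw [le_div_iff₀ (by linarith)]; linarith
      calc ((D : ℝ) - -D) / c + 1 ≤ 2 * D / c + D / c := by
            have : ((D : ℝ) - -D) / c = 2 * D / c := by ring
            linarith
        _ = 3 * D / c := by ring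
    · rw [not_nonempty_iff_eq_empty] at hne
      rw [hne]
      simp only [card_empty, Nat.cast_zero]
      positivity
  rw [h1]
  push_cast
  refine (Finset.sum_le_sum h2).trans ?_
  rw [Finset.sum_const, nsmul_eq_mul, Int.card_Icc]
  have h3 : (((c : ℤ) + 1 - -(c : ℤ)).toNat : ℝ) = 2 * c + 1 := by
    have : ((c : ℤ) + 1 - -(c : ℤ)).toNat = 2 * c + 1 := by omega
    rw [this]; push_cast; ring
  rw [h3]
  calc (2 * (c : ℝ) + 1) * (3 * D / c) ≤ (3 * c) * (3 * D / c) := by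
        apply mul_le_mul_of_nonneg_right
        · linarith
        · positivity
    _ = 9 * D := by field_simp; ring

/-- the decomposition of `c` -/
theorem decomp (c M : ℕ) (hc : 0 < c) (hM : 0 < M) : ∃ g q e : ℕ, c = g * q ∧ Squarefree q ∧
    0 < q ∧ 0 < g ∧ Nat.Coprime q (g * M) ∧ g ≤ e ^ 3 * M ∧ e ^ 2 ∣ c ∧ 0 < e := by
  obtain ⟨s, e, hes, hs⟩ := Nat.sq_mul_squarefree c
  have he : 0 < e := Nat.pos_of_ne_zero (by rintro rfl; simp at hes; omega)
  have hs0 : 0 < s := Nat.pos_of_ne_zero (by rintro rfl; simp at hes; omega)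
  obtain ⟨t, ht⟩ : ∃ t, t = Nat.gcd s (e * M) := ⟨_, rfl⟩
  have ht0 : 0 < t := by rw [ht]; exact Nat.gcd_pos_of_pos_left _ hs0
  obtain ⟨q, hq⟩ : t ∣ s := by rw [ht]; exact Nat.gcd_dvd_left _ _
  have hq0 : 0 < q := Nat.pos_of_ne_zero (by rintro rfl; simp at hq; omega)
  have htq : Nat.Coprime t q := by rw [hq] at hs; exact Nat.coprime_of_squarefree_mul hs
  have hqeM : Nat.Coprime q (e * M) := by
    have h1 : Nat.gcd q (e * M) ∣ t := by
      rw [ht]
      apply Nat.dvd_gcd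
      · exact (Nat.gcd_dvd_left _ _).trans ⟨t, by rw [hq]; ring⟩
      · exact Nat.gcd_dvd_right _ _
    have h2 : Nat.gcd q (e * M) ∣ q := Nat.gcd_dvd_left _ _
    have h3 := Nat.dvd_gcd h1 h2
    rw [htq] at h3
    exact Nat.dvd_one.1 h3
  refine ⟨e ^ 2 * t, q, e, ?_, ?_, hq0, by positivity, ?_, ?_, ?_, he⟩
  · rw [← hes, hq]; ring
  · rw [hq] at hs
    exact hs.squarefree_of_dvd (dvd_mul_left _ _)
  · have h1 : Nat.Coprime q e := Nat.Coprime.coprime_dvd_right (dvd_mul_right _ _) hqeM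
    have h2 : Nat.Coprime q M := Nat.Coprime.coprime_dvd_right (dvd_mul_left _ _) hqeM
    exact Nat.Coprime.mul_right (Nat.Coprime.mul_right (Nat.Coprime.pow_right _ h1) htq.symm) h2
  · have h1 : t ≤ e * M := Nat.le_of_dvd (by positivity) (by rw [ht]; exact Nat.gcd_dvd_right _ _)
    calc e ^ 2 * t ≤ e ^ 2 * (e * M) := Nat.mul_le_mul_left _ h1
      _ = e ^ 3 * M := by ring
  · exact ⟨s, hes.symm⟩

/-- `2^ω(q) √q ≤ 3 q^(9/10)` for squarefree `q` -/
theorem two_pow_omega (q : ℕ) (hq : Squarefree q) :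
    (2 : ℝ) ^ q.primeFactors.card * Real.sqrt q ≤ 3 * (q : ℝ) ^ (9 / 10 : ℝ) := by
  have hq0 : 0 < q := Nat.pos_of_ne_zero hq.ne_zero
  have hqr : (0 : ℝ) < q := by exact_mod_cast hq0
  -- `32^ω ≤ 64 q^2`
  have key : (32 : ℕ) ^ q.primeFactors.card ≤ 64 * q ^ 2 := by
    set f : ℕ → ℕ := fun l => if l = 2 then 8 else if l = 3 then 4 else if l = 5 then 2 else 1
      with hf
    have h1 : ∀ l ∈ q.primeFactors, 32 ≤ f l * l ^ 2 := by
      intro l hl
      have hlp := Nat.prime_of_mem_primeFactors hl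
      rw [hf]
      simp only
      split_ifs with h2 h3 h5
      · subst h2; norm_num
      · subst h3; norm_num
      · subst h5; norm_num
      · have h2l := hlp.two_le
        have h4 : l ≠ 4 := by rintro rfl; norm_num at hlp
        have h6 : 6 ≤ l := by omega
        nlinarith
    have h2 : ∏ l ∈ q.primeFactors, f l ≤ 64 := by
      have h3 : ∏ l ∈ q.primeFactors, f l = ∏ l ∈ q.primeFactors ∩ {2, 3, 5}, f l := by
        symm
        apply Finset.prod_subset Finset.inter_subset_left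
        intro l hl hl'
        rw [mem_inter] at hl'
        have h4 : l ∉ ({2, 3, 5} : Finset ℕ) := fun h => hl' ⟨hl, h⟩
        simp only [mem_insert, mem_singleton, not_or] at h4
        rw [hf]
        simp only
        rw [if_neg h4.1, if_neg h4.2.1, if_neg h4.2.2]
      rw [h3]
      calc ∏ l ∈ q.primeFactors ∩ {2, 3, 5}, f l ≤ ∏ l ∈ ({2, 3, 5} : Finset ℕ), f l := by
            apply Finset.prod_le_prod_of_subset_of_one_le' Finset.inter_subset_right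
            intro l _ _
            rw [hf]
            simp only
            split_ifs <;> norm_num
        _ = 64 := by rw [hf]; decide
    have h3 : ∏ l ∈ q.primeFactors, l = q := Nat.prod_primeFactors_of_squarefree hq
    calc (32 : ℕ) ^ q.primeFactors.card = ∏ l ∈ q.primeFactors, 32 := by rw [Finset.prod_const]
      _ ≤ ∏ l ∈ q.primeFactors, (f l * l ^ 2) := Finset.prod_le_prod' h1
      _ = (∏ l ∈ q.primeFactors, f l) * (∏ l ∈ q.primeFactors, l) ^ 2 := by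
          rw [Finset.prod_mul_distrib, Finset.prod_pow]
      _ ≤ 64 * q ^ 2 := by rw [h3]; exact Nat.mul_le_mul_right _ h2
  set x : ℝ := (2 : ℝ) ^ q.primeFactors.card with hx
  have hx0 : 0 < x := by rw [hx]; positivity
  have h1 : x ^ 5 ≤ 64 * (q : ℝ) ^ 2 := by
    rw [hx, ← pow_mul, mul_comm, pow_mul]
    norm_num
    exact_mod_cast key
  have h2 : x ≤ 3 * (q : ℝ) ^ (2 / 5 : ℝ) := by
    have h3 : x ^ 5 ≤ (3 * (q : ℝ) ^ (2 / 5 : ℝ)) ^ 5 := by
      rw [mul_pow, ← Real.rpow_natCast ((q : ℝ) ^ (2 / 5 : ℝ)), ← Real.rpow_mul hqr.le]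
      norm_num
      nlinarith [sq_nonneg (q : ℝ)]
    exact le_of_pow_le_pow_left₀ (by norm_num) (by positivity) h3
  calc x * Real.sqrt q ≤ (3 * (q : ℝ) ^ (2 / 5 : ℝ)) * (q : ℝ) ^ (1 / 2 : ℝ) := by
        rw [Real.sqrt_eq_rpow]
        gcongr
    _ = 3 * (q : ℝ) ^ (9 / 10 : ℝ) := by
        rw [mul_assoc, ← Real.rpow_add hqr]
        norm_num

theorem EE_le (q M Y : ℕ) (hq : Squarefree q) (hqY : q ≤ Y) :
    EE q M ≤ 3 * (Y : ℝ) ^ (9 / 10 : ℝ) * (M * (4 + Real.log Y)) := by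
  have hq0 : 0 < q := Nat.pos_of_ne_zero hq.ne_zero
  have hqr : (0 : ℝ) < q := by exact_mod_cast hq0
  have hqYr : (q : ℝ) ≤ Y := by exact_mod_cast hqY
  have hlogq : 0 ≤ Real.log q := Real.log_nonneg (by exact_mod_cast hq0)
  have h1 : Real.log q ≤ Real.log Y := Real.log_le_log hqr hqYr
  unfold EE
  have h2 : (2 : ℝ) ^ q.primeFactors.card * Real.sqrt q ≤ 3 * (Y : ℝ) ^ (9 / 10 : ℝ) := by
    refine (two_pow_omega q hq).trans ?_
    gcongr
  gcongr

open scoped Classical in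
/-- numbers divisible by a large square -/
theorem card_bad (Y E₀ : ℕ) (hE : 1 ≤ E₀) :
    ((((Icc 1 Y).filter (fun c => ∃ e : ℕ, E₀ < e ∧ e ^ 2 ∣ c)).card : ℕ) : ℝ) ≤ Y / E₀ := by
  have h1 : (Icc 1 Y).filter (fun c => ∃ e : ℕ, E₀ < e ∧ e ^ 2 ∣ c) ⊆
      (Ioc E₀ Y).biUnion (fun e => (Ioc 0 Y).filter (fun c => e ^ 2 ∣ c)) := by
    intro c hc
    rw [mem_filter, mem_Icc] at hc
    obtain ⟨⟨h1, h2⟩, e, h3, h4⟩ := hc
    rw [mem_biUnion]
    refine ⟨e, ?_, ?_⟩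
    · rw [mem_Ioc]
      refine ⟨h3, ?_⟩
      have h5 : e ^ 2 ≤ c := Nat.le_of_dvd h1 h4
      nlinarith
    · rw [mem_filter, mem_Ioc]
      exact ⟨⟨h1, h2⟩, h4⟩
  have h2 : ((((Icc 1 Y).filter (fun c => ∃ e : ℕ, E₀ < e ∧ e ^ 2 ∣ c)).card : ℕ) : ℝ) ≤
      ∑ e ∈ Ioc E₀ Y, (Y : ℝ) / (e : ℝ) ^ 2 := by
    have h3 := (Finset.card_le_card h1).trans Finset.card_biUnion_le
    have h4 : ((((Icc 1 Y).filter (fun c => ∃ e : ℕ, E₀ < e ∧ e ^ 2 ∣ c)).card : ℕ) : ℝ) ≤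
        ∑ e ∈ Ioc E₀ Y, (((Ioc 0 Y).filter (fun c => e ^ 2 ∣ c)).card : ℝ) := by
      exact_mod_cast h3
    refine h4.trans (Finset.sum_le_sum fun e _ => ?_)
    rw [Nat.Ioc_filter_dvd_card_eq_div]
    have := @Nat.cast_div_le ℝ _ _ _ Y (e ^ 2)
    push_cast at this
    exact this
  refine h2.trans ?_
  -- telescoping
  have h3 : ∀ n : ℕ, ∑ e ∈ Ioc E₀ (E₀ + n), (1 : ℝ) / (e : ℝ) ^ 2 ≤ 1 / E₀ - 1 / ((E₀ + n : ℕ) : ℝ) := by
    intro n
    induction n with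
    | zero => simp
    | succ n ih =>
      rw [← Nat.add_assoc, Finset.sum_Ioc_succ_top (by omega)]
      have hE' : (1 : ℝ) ≤ E₀ := by exact_mod_cast hE
      have hm : (0 : ℝ) < ((E₀ + n : ℕ) : ℝ) := by push_cast; positivity
      have h4 : (1 : ℝ) / (((E₀ + n + 1 : ℕ)) : ℝ) ^ 2 ≤
          1 / ((E₀ + n : ℕ) : ℝ) - 1 / ((E₀ + n + 1 : ℕ) : ℝ) := by
        set m : ℝ := ((E₀ + n : ℕ) : ℝ) with hmdef
        have h5 : ((E₀ + n + 1 : ℕ) : ℝ) = m + 1 := by rw [hmdef]; push_cast; ring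
        rw [h5, div_sub_div _ _ hm.ne' (by positivity), div_le_div_iff₀ (by positivity) (by positivity)]
        nlinarith
      linarith
  have h4 : ∑ e ∈ Ioc E₀ Y, (Y : ℝ) / (e : ℝ) ^ 2 = Y * ∑ e ∈ Ioc E₀ Y, (1 : ℝ) / (e : ℝ) ^ 2 := by
    rw [Finset.mul_sum]
    exact Finset.sum_congr rfl fun e _ => by ring
  rw [h4]
  by_cases hY : E₀ ≤ Y
  · obtain ⟨n, rfl⟩ := Nat.exists_eq_add_of_le hY
    have h5 := h3 n
    have h6 : (0 : ℝ) ≤ 1 / ((E₀ + n : ℕ) : ℝ) := by positivity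
    calc (((E₀ + n : ℕ)) : ℝ) * ∑ e ∈ Ioc E₀ (E₀ + n), (1 : ℝ) / (e : ℝ) ^ 2
        ≤ (((E₀ + n : ℕ)) : ℝ) * (1 / E₀) := by
          apply mul_le_mul_of_nonneg_left _ (by positivity)
          linarith
      _ = _ := by ring
  · rw [Finset.Ioc_eq_empty (by omega)]
    simp only [sum_empty, mul_zero]
    positivity

/-- the sum over `c` -/
theorem sum_le (Y D M E₀ : ℕ) (hM : 1 ≤ M) (hE : 1 ≤ E₀) (hY : 1 ≤ Y) (hYD : Y ≤ D)
    (a₀ b₀ c₀ d₀ : ℤ) :
    ∑ c ∈ (Icc 1 Y).filter (fun c : ℕ => (c : ℤ) ≡ c₀ [ZMOD M]),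
      ((setc c D M a₀ b₀ d₀).card : ℝ) ≤
      432 * (Y * D / (M : ℝ) ^ 3) + 432 * D / (M : ℝ) ^ 2 +
      12 * (E₀ : ℝ) ^ 3 * (M : ℝ) ^ 2 * (4 + Real.log Y) * (Y : ℝ) ^ (19 / 10 : ℝ) +
      9 * D * ((E₀ : ℝ) ^ 3 * (M : ℝ) ^ 2 + Y / E₀) := by
  classical
  have hMr : (1 : ℝ) ≤ M := by exact_mod_cast hM
  have hEr : (1 : ℝ) ≤ E₀ := by exact_mod_cast hE
  have hYr : (1 : ℝ) ≤ Y := by exact_mod_cast hY
  have hDr : (1 : ℝ) ≤ D := by exact_mod_cast hY.trans hYD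
  have hlogY : 0 ≤ Real.log Y := Real.log_nonneg hYr
  set bad : ℕ → Prop := fun c => (∃ e : ℕ, E₀ < e ∧ e ^ 2 ∣ c) ∨ c < E₀ ^ 3 * M ^ 2 with hbad
  have h1 : ∀ c ∈ (Icc 1 Y).filter (fun c : ℕ => (c : ℤ) ≡ c₀ [ZMOD M]),
      ((setc c D M a₀ b₀ d₀).card : ℝ) ≤
        (432 * D / (M : ℝ) ^ 2 +
          4 * ((E₀ : ℝ) ^ 3 * M) * (3 * (Y : ℝ) ^ (9 / 10 : ℝ) * (M * (4 + Real.log Y)))) +
        (if bad c then 9 * (D : ℝ) else 0) := by
    intro c hc
    rw [mem_filter, mem_Icc] at hc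
    obtain ⟨⟨hc1, hc2⟩, -⟩ := hc
    by_cases hb : bad c
    · rw [if_pos hb]
      have := triv_le c D M hc1 (hc2.trans hYD) a₀ b₀ d₀
      have h2 : 0 ≤ 432 * D / (M : ℝ) ^ 2 +
          4 * ((E₀ : ℝ) ^ 3 * M) * (3 * (Y : ℝ) ^ (9 / 10 : ℝ) * (M * (4 + Real.log Y))) := by
        positivity
      linarith
    · rw [if_neg hb, add_zero]
      rw [hbad] at hb
      simp only [not_or, not_exists, not_and, not_lt] at hb
      obtain ⟨hb1, hb2⟩ := hb
      obtain ⟨g, q, e, hcg, hq, hq0, hg0, hcop, hge, hec, he0⟩ := decomp c M (by omega) (by omega)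
      have heE : e ≤ E₀ := by
        by_contra hlt
        push Not at hlt
        exact hb1 e hlt hec
      have hgE : g ≤ E₀ ^ 3 * M := hge.trans (Nat.mul_le_mul_right _ (Nat.pow_le_pow_left heE 3))
      have hMq : M ≤ q := by
        have h2 : g * M ≤ g * q := by
          rw [← hcg]
          calc g * M ≤ (E₀ ^ 3 * M) * M := Nat.mul_le_mul_right _ hgE
            _ = E₀ ^ 3 * M ^ 2 := by ring
            _ ≤ c := hb2
        exact Nat.le_of_mul_le_mul_left h2 hg0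
      have h2 := setc_le g q M D hq hq0 hg0 hM hcop hMq (by rw [← hcg]; omega) a₀ b₀ d₀
      rw [← hcg] at h2
      refine h2.trans ?_
      have hqY : q ≤ Y := (Nat.le_of_dvd (by omega) ⟨g, by rw [hcg]; ring⟩).trans hc2
      have h3 := EE_le q M Y hq hqY
      have hE0 : 0 ≤ EE q M := by
        unfold EE
        have hlogq : 0 ≤ Real.log q := Real.log_nonneg (by exact_mod_cast hq0)
        positivity
      have h4 : (g : ℝ) ≤ (E₀ : ℝ) ^ 3 * M := by exact_mod_cast hgE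
      gcongr
  refine (Finset.sum_le_sum h1).trans ?_
  rw [Finset.sum_add_distrib, Finset.sum_const, nsmul_eq_mul, mul_add]
  -- number of `c`
  have hN : (((Icc 1 Y).filter (fun c : ℕ => (c : ℤ) ≡ c₀ [ZMOD M])).card : ℝ) ≤ Y / M + 1 := by
    have h2 : ((Icc 1 Y).filter (fun c : ℕ => (c : ℤ) ≡ c₀ [ZMOD M])).card ≤
        ((Icc (1 : ℤ) Y).filter (fun c : ℤ => c ≡ c₀ [ZMOD M])).card := by
      apply Finset.card_le_card_of_injOn (fun c : ℕ => (c : ℤ))
      · intro c hc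
        rw [mem_coe, mem_filter, mem_Icc] at hc
        rw [mem_coe, mem_filter, mem_Icc]
        have e1 : (1 : ℤ) ≤ (c : ℤ) := by exact_mod_cast hc.1.1
        have e2 : (c : ℤ) ≤ Y := by exact_mod_cast hc.1.2
        exact ⟨⟨e1, e2⟩, hc.2⟩
      · intro c _ c' _ h
        have h' : (c : ℤ) = c' := h
        exact_mod_cast h'
    have h3 := card_prog M (by omega) c₀ 1 Y (by exact_mod_cast hY)
    have h4 : (((Icc 1 Y).filter (fun c : ℕ => (c : ℤ) ≡ c₀ [ZMOD M])).card : ℝ) ≤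
        ((((Icc (1 : ℤ) Y).filter (fun c : ℤ => c ≡ c₀ [ZMOD M])).card : ℕ) : ℝ) := by
      exact_mod_cast h2
    refine h4.trans (h3.trans ?_)
    push_cast
    have : ((Y : ℝ) - 1) / M ≤ Y / M := by
      apply div_le_div_of_nonneg_right _ (by linarith)
      linarith
    linarith
  have hN2 : (((Icc 1 Y).filter (fun c : ℕ => (c : ℤ) ≡ c₀ [ZMOD M])).card : ℝ) ≤ Y := by
    have h2 := Finset.card_filter_le (Icc 1 Y) (fun c : ℕ => (c : ℤ) ≡ c₀ [ZMOD M])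
    rw [Nat.card_Icc] at h2
    have : ((Icc 1 Y).filter (fun c : ℕ => (c : ℤ) ≡ c₀ [ZMOD M])).card ≤ Y := by omega
    exact_mod_cast this
  -- bad ones
  have hB : ∑ c ∈ (Icc 1 Y).filter (fun c : ℕ => (c : ℤ) ≡ c₀ [ZMOD M]),
      (if bad c then 9 * (D : ℝ) else 0) ≤ 9 * D * ((E₀ : ℝ) ^ 3 * (M : ℝ) ^ 2 + Y / E₀) := by
    have h2 : ∑ c ∈ (Icc 1 Y).filter (fun c : ℕ => (c : ℤ) ≡ c₀ [ZMOD M]),
        (if bad c then 9 * (D : ℝ) else 0) ≤
        ∑ c ∈ Icc 1 Y, (if bad c then 9 * (D : ℝ) else 0) := by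
      apply Finset.sum_le_sum_of_subset_of_nonneg (Finset.filter_subset _ _)
      intro c _ _
      split_ifs <;> positivity
    refine h2.trans ?_
    rw [← Finset.sum_filter, Finset.sum_const, nsmul_eq_mul, mul_comm]
    apply mul_le_mul_of_nonneg_left _ (by positivity)
    have h3 : (Icc 1 Y).filter bad ⊆ (Icc 1 Y).filter (fun c => ∃ e : ℕ, E₀ < e ∧ e ^ 2 ∣ c) ∪
        Finset.range (E₀ ^ 3 * M ^ 2) := by
      intro c hc
      rw [mem_filter] at hc
      rw [mem_union, mem_filter, mem_range]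
      rcases hc.2 with h | h
      · exact Or.inl ⟨hc.1, h⟩
      · exact Or.inr h
    have h4 : (((Icc 1 Y).filter bad).card : ℝ) ≤
        (((Icc 1 Y).filter (fun c => ∃ e : ℕ, E₀ < e ∧ e ^ 2 ∣ c)).card : ℝ) +
          ((E₀ ^ 3 * M ^ 2 : ℕ) : ℝ) := by
      have := (Finset.card_le_card h3).trans (Finset.card_union_le _ _)
      rw [card_range] at this
      exact_mod_cast this
    have h5 := card_bad Y E₀ hE
    push_cast at h4
    linarith
  have hP : (Y : ℝ) * (Y : ℝ) ^ (9 / 10 : ℝ) = (Y : ℝ) ^ (19 / 10 : ℝ) := by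
    conv_lhs => rw [← Real.rpow_one (Y : ℝ), ← Real.rpow_mul (by positivity), one_mul]
    rw [← Real.rpow_add (by linarith)]
    norm_num
  have t1 : (((Icc 1 Y).filter (fun c : ℕ => (c : ℤ) ≡ c₀ [ZMOD M])).card : ℝ) *
      (432 * D / (M : ℝ) ^ 2) ≤ 432 * (Y * D / (M : ℝ) ^ 3) + 432 * D / (M : ℝ) ^ 2 := by
    calc _ ≤ ((Y : ℝ) / M + 1) * (432 * D / (M : ℝ) ^ 2) := by
          apply mul_le_mul_of_nonneg_right hN
          positivity
      _ = _ := by field_simp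
  have t2 : (((Icc 1 Y).filter (fun c : ℕ => (c : ℤ) ≡ c₀ [ZMOD M])).card : ℝ) *
      (4 * ((E₀ : ℝ) ^ 3 * M) * (3 * (Y : ℝ) ^ (9 / 10 : ℝ) * (M * (4 + Real.log Y)))) ≤
      12 * (E₀ : ℝ) ^ 3 * (M : ℝ) ^ 2 * (4 + Real.log Y) * (Y : ℝ) ^ (19 / 10 : ℝ) := by
    calc _ ≤ (Y : ℝ) *
          (4 * ((E₀ : ℝ) ^ 3 * M) * (3 * (Y : ℝ) ^ (9 / 10 : ℝ) * (M * (4 + Real.log Y)))) := by
          apply mul_le_mul_of_nonneg_right hN2
          positivity
      _ = _ := by rw [← hP]; ring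
  linarith

end Pool.Agent.W591.GM
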