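import Pool.Agent.W78.GM.Defs2
import Pool.Agent.W591.GM.Sum

/-!
`S_EQU`: upper bound for the number of determinant one pairs in a residue class.
-/

set_option autoImplicit false

namespace Pool.Agent.W591.GM

open Finset Filter
open Pool.Agent.W78.GM

/-- pairs in the sector `0 < im v`, `|re v| ≤ im v` -/
theorem reg_le (F : Finset (GaussianInt × GaussianInt)) (Y D M : ℕ) (v₀ u₀ : GaussianInt)
    (hF : ∀ e ∈ F, dt e.1 e.2 = 1 ∧ (M : GaussianInt) ∣ e.1 - v₀ ∧ (M : GaussianInt) ∣ e.2 - u₀ ∧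
      0 < e.1.im ∧ |e.1.re| ≤ e.1.im ∧ e.1.im ≤ Y ∧ |e.2.im| ≤ D) :
    (F.card : ℝ) ≤ ∑ c ∈ (Icc 1 Y).filter (fun c : ℕ => (c : ℤ) ≡ v₀.im [ZMOD M]),
      ((setc c D M v₀.re u₀.re u₀.im).card : ℝ) := by
  have hdvd : ∀ z w : GaussianInt, (M : GaussianInt) ∣ z - w →
      z.re ≡ w.re [ZMOD M] ∧ z.im ≡ w.im [ZMOD M] := by
    intro z w h
    have h1 : (((M : ℤ)) : GaussianInt) ∣ z - w := by exact_mod_cast h
    rw [Zsqrtd.intCast_dvd] at h1
    constructor
    · apply Int.ModEq.symm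
      rw [Int.modEq_iff_dvd]
      simpa using h1.1
    · apply Int.ModEq.symm
      rw [Int.modEq_iff_dvd]
      simpa using h1.2
  have h1 : F.card = ∑ c ∈ (Icc 1 Y).filter (fun c : ℕ => (c : ℤ) ≡ v₀.im [ZMOD M]),
      (F.filter (fun e => e.1.im.toNat = c)).card := by
    apply Finset.card_eq_sum_card_fiberwise
    intro e he
    rw [mem_coe] at he
    obtain ⟨h2, h3, h4, h5, h6, h7, h8⟩ := hF e he
    rw [mem_coe, mem_filter, mem_Icc]
    refine ⟨⟨show 1 ≤ e.1.im.toNat by omega, show e.1.im.toNat ≤ Y by omega⟩, ?_⟩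
    rw [Int.toNat_of_nonneg h5.le]
    exact (hdvd _ _ h3).2
  rw [h1]
  push_cast
  apply Finset.sum_le_sum
  intro c hc
  have h2 : (F.filter (fun e => e.1.im.toNat = c)).card ≤
      (setc c D M v₀.re u₀.re u₀.im).card := by
    apply Finset.card_le_card_of_injOn (fun e => (e.1.re, e.2.im))
    · intro e he
      rw [mem_coe, mem_filter] at he
      obtain ⟨he1, he2⟩ := he
      obtain ⟨h2, h3, h4, h5, h6, h7, h8⟩ := hF e he1
      have hc' : e.1.im = c := by omega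
      rw [mem_coe]
      unfold setc
      rw [mem_filter, mem_product, mem_Icc, mem_Icc]
      rw [abs_le] at h6 h8
      refine ⟨⟨⟨by simp only; omega, by simp only; omega⟩, by simp only; omega,
        by simp only; omega⟩, (hdvd _ _ h3).1, (hdvd _ _ h4).2, ?_⟩
      simp only
      have h9 : e.1.re * e.2.im = 1 + c * e.2.re := by
        unfold dt at h2
        rw [hc'] at h2
        linarith
      rw [h9]
      apply Int.ModEq.add_left
      have h10 := (hdvd _ _ h4).1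
      apply Int.ModEq.symm
      rw [Int.modEq_iff_dvd]
      obtain ⟨k, hk⟩ := h10.symm.dvd
      refine ⟨k, ?_⟩
      push_cast
      have : (c : ℤ) * e.2.re - c * u₀.re = c * (e.2.re - u₀.re) := by ring
      rw [this, hk]
      ring
    · intro e he e' he' heq
      rw [mem_coe, mem_filter] at he he'
      obtain ⟨he1, he2⟩ := he
      obtain ⟨he1', he2'⟩ := he'
      obtain ⟨h2, h3, h4, h5, h6, h7, h8⟩ := hF e he1
      obtain ⟨h2', h3', h4', h5', h6', h7', h8'⟩ := hF e' he1'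
      rw [Prod.mk.injEq] at heq
      obtain ⟨q1, q2⟩ := heq
      have him : e.1.im = e'.1.im := by omega
      have hre : e.2.re = e'.2.re := by
        unfold dt at h2 h2'
        rw [q1, q2, him] at h2
        have h9 : e'.1.im * e.2.re = e'.1.im * e'.2.re := by linarith
        exact mul_left_cancel₀ (by omega) h9
      apply Prod.ext
      · exact Zsqrtd.ext q1 him
      · exact Zsqrtd.ext hre q2
  exact_mod_cast h2

theorem dt_mul (w v u : GaussianInt) : dt (w * v) (w * u) = nm w * dt v u := by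
  rw [nm_cast]
  unfold dt
  simp only [Zsqrtd.re_mul, Zsqrtd.im_mul]
  ring

/-- the bound for one sector -/
noncomputable def BB (Y D M E₀ : ℕ) : ℝ :=
  432 * (Y * D / (M : ℝ) ^ 3) + 432 * D / (M : ℝ) ^ 2 +
      12 * (E₀ : ℝ) ^ 3 * (M : ℝ) ^ 2 * (4 + Real.log Y) * (Y : ℝ) ^ (19 / 10 : ℝ) +
      9 * D * ((E₀ : ℝ) ^ 3 * (M : ℝ) ^ 2 + Y / E₀)

theorem im_le {X : ℝ} (hX : 1 ≤ X) {z : GaussianInt} (h : (nm z : ℝ) ≤ X) :
    |z.im| ≤ (⌊Real.sqrt X⌋₊ : ℤ) := by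
  have h1 := nm_castR z
  have h2 : |(z.im : ℝ)| ≤ Real.sqrt X := by
    apply Real.abs_le_sqrt
    nlinarith [sq_nonneg (z.re : ℝ)]
  have h3 : ((z.im.natAbs : ℕ) : ℝ) ≤ Real.sqrt X := by
    rw [Nat.cast_natAbs]
    push_cast
    exact h2
  have h4 : z.im.natAbs ≤ ⌊Real.sqrt X⌋₊ := Nat.le_floor h3
  rw [Int.abs_eq_natAbs]
  exact_mod_cast h4

open scoped Classical in
theorem half (X₁ X₂ : ℝ) (h1 : 1 ≤ X₁) (h12 : X₁ ≤ X₂) (M E₀ : ℕ) (hM : 1 ≤ M) (hE : 1 ≤ E₀)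
    (v₀ u₀ : GaussianInt) :
    (((redge X₁ X₂).filter (fun e => (M : GaussianInt) ∣ e.1 - v₀ ∧
      (M : GaussianInt) ∣ e.2 - u₀)).card : ℝ) ≤
      4 * BB ⌊Real.sqrt X₁⌋₊ ⌊Real.sqrt X₂⌋₊ M E₀ := by
  set F := (redge X₁ X₂).filter (fun e => (M : GaussianInt) ∣ e.1 - v₀ ∧
      (M : GaussianInt) ∣ e.2 - u₀) with hF
  set W : Finset GaussianInt := {1, ⟨0, 1⟩, -1, ⟨0, -1⟩} with hW
  have hWcard : W.card ≤ 4 := by
    rw [hW]
    exact Finset.card_le_four
  have hWnm : ∀ w ∈ W, nm w = 1 := by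
    intro w hw
    rw [hW] at hw
    simp only [mem_insert, mem_singleton] at hw
    rcases hw with rfl | rfl | rfl | rfl <;> simp [nm]
  have hcover : F ⊆ W.biUnion (fun w => F.filter (fun e => 0 < (w * e.1).im ∧
      |(w * e.1).re| ≤ (w * e.1).im)) := by
    intro e he
    have he' := he
    rw [hF, mem_filter] at he'
    unfold redge at he'
    rw [mem_filter, mem_product, mem_pball] at he'
    have hdt := he'.1.2
    rw [mem_biUnion]
    have hne : e.1.re ≠ 0 ∨ e.1.im ≠ 0 := by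
      by_contra hcon
      push Not at hcon
      unfold dt at hdt
      rw [hcon.1, hcon.2] at hdt
      simp at hdt
    by_cases hlt : |e.1.re| ≤ |e.1.im|
    · rcases lt_trichotomy e.1.im 0 with h | h | h
      · refine ⟨-1, by simp [hW], ?_⟩
        rw [mem_filter]
        refine ⟨he, ?_, ?_⟩
        · simp; omega
        · simp only [neg_mul, one_mul, Zsqrtd.re_neg, Zsqrtd.im_neg, abs_neg]
          rwa [abs_of_neg h] at hlt
      · exfalso
        rw [h] at hlt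
        simp only [abs_zero, abs_nonpos_iff] at hlt
        rcases hne with h' | h'
        · exact h' hlt
        · exact h' h
      · refine ⟨1, by simp [hW], ?_⟩
        rw [mem_filter]
        refine ⟨he, ?_, ?_⟩
        · rwa [one_mul]
        · rw [one_mul]
          rwa [abs_of_pos h] at hlt
    · push Not at hlt
      rcases lt_trichotomy e.1.re 0 with h | h | h
      · refine ⟨⟨0, -1⟩, by simp [hW], ?_⟩
        rw [mem_filter]
        refine ⟨he, ?_, ?_⟩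
        · simp [Zsqrtd.im_mul]; omega
        · rw [abs_of_neg h] at hlt
          simp only [Zsqrtd.re_mul, Zsqrtd.im_mul]
          have : (0 * e.1.re + -1 * -1 * e.1.im : ℤ) = e.1.im := by ring
          rw [this]
          have : (0 * e.1.im + -1 * e.1.re : ℤ) = - e.1.re := by ring
          rw [this]
          exact hlt.le
      · exfalso
        rw [h] at hlt
        simp only [abs_zero] at hlt
        have := abs_nonneg e.1.im
        omega
      · refine ⟨⟨0, 1⟩, by simp [hW], ?_⟩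
        rw [mem_filter]
        refine ⟨he, ?_, ?_⟩
        · simp [Zsqrtd.im_mul]; omega
        · rw [abs_of_pos h] at hlt
          simp only [Zsqrtd.re_mul, Zsqrtd.im_mul]
          have : (0 * e.1.re + -1 * 1 * e.1.im : ℤ) = -e.1.im := by ring
          rw [this, abs_neg]
          have : (0 * e.1.im + 1 * e.1.re : ℤ) = e.1.re := by ring
          rw [this]
          exact hlt.le
  have hX2 : 1 ≤ X₂ := h1.trans h12
  have hY1 : 1 ≤ ⌊Real.sqrt X₁⌋₊ := by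
    apply Nat.le_floor
    rw [Nat.cast_one]
    exact Real.one_le_sqrt.2 h1
  have hYD : ⌊Real.sqrt X₁⌋₊ ≤ ⌊Real.sqrt X₂⌋₊ := Nat.floor_le_floor (Real.sqrt_le_sqrt h12)
  have hone : ∀ w ∈ W, ((F.filter (fun e => 0 < (w * e.1).im ∧
      |(w * e.1).re| ≤ (w * e.1).im)).card : ℝ) ≤ BB ⌊Real.sqrt X₁⌋₊ ⌊Real.sqrt X₂⌋₊ M E₀ := by
    intro w hw
    have hw1 := hWnm w hw
    have hw0 : w ≠ 0 := by
      rintro rfl
      simp at hw1
    set G := (F.filter (fun e => 0 < (w * e.1).im ∧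
      |(w * e.1).re| ≤ (w * e.1).im)).image (fun e => (w * e.1, w * e.2)) with hG
    have hcard : (F.filter (fun e => 0 < (w * e.1).im ∧
      |(w * e.1).re| ≤ (w * e.1).im)).card = G.card := by
      rw [hG, Finset.card_image_of_injective]
      intro e e' h
      simp only [Prod.mk.injEq] at h
      exact Prod.ext (mul_left_cancel₀ hw0 h.1) (mul_left_cancel₀ hw0 h.2)
    rw [hcard]
    have hr := reg_le G ⌊Real.sqrt X₁⌋₊ ⌊Real.sqrt X₂⌋₊ M (w * v₀) (w * u₀) (by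
      intro e he
      rw [hG, mem_image] at he
      obtain ⟨e', he', rfl⟩ := he
      rw [mem_filter, hF, mem_filter] at he'
      obtain ⟨⟨he1, he2, he3⟩, he4, he5⟩ := he'
      unfold redge at he1
      rw [mem_filter, mem_product, mem_pball, mem_pball] at he1
      obtain ⟨⟨⟨-, he6⟩, -, he7⟩, he8⟩ := he1
      refine ⟨?_, ?_, ?_, he4, he5, ?_, ?_⟩
      · simp only
        rw [dt_mul, hw1, he8]; simp
      · simp only
        rw [← mul_sub]
        exact Dvd.dvd.mul_left he2 _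
      · simp only
        rw [← mul_sub]
        exact Dvd.dvd.mul_left he3 _
      · have h2 := im_le h1 (z := w * e'.1) (by rw [nm_mul, hw1, one_mul]; exact he6)
        exact (le_abs_self _).trans h2
      · exact im_le hX2 (z := w * e'.2) (by rw [nm_mul, hw1, one_mul]; exact he7))
    refine hr.trans ?_
    exact sum_le _ _ M E₀ hM hE hY1 hYD _ _ _ _
  have hBB : 0 ≤ BB ⌊Real.sqrt X₁⌋₊ ⌊Real.sqrt X₂⌋₊ M E₀ := by
    have := hone 1 (by simp [hW])
    exact le_trans (by positivity) this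
  have h2 : (F.card : ℝ) ≤ ∑ w ∈ W, ((F.filter (fun e => 0 < (w * e.1).im ∧
      |(w * e.1).re| ≤ (w * e.1).im)).card : ℝ) := by
    exact_mod_cast (Finset.card_le_card hcover).trans Finset.card_biUnion_le
  refine h2.trans ((Finset.sum_le_sum hone).trans ?_)
  rw [Finset.sum_const, nsmul_eq_mul]
  apply mul_le_mul_of_nonneg_right _ hBB
  exact_mod_cast hWcard

open scoped Classical in
theorem swap (X₁ X₂ : ℝ) (M : ℕ) (v₀ u₀ : GaussianInt) :
    ((redge X₁ X₂).filter (fun e => (M : GaussianInt) ∣ e.1 - v₀ ∧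
      (M : GaussianInt) ∣ e.2 - u₀)).card ≤
    ((redge X₂ X₁).filter (fun e => (M : GaussianInt) ∣ e.1 - u₀ ∧
      (M : GaussianInt) ∣ e.2 - (-v₀))).card := by
  apply Finset.card_le_card_of_injOn (fun e => (e.2, -e.1))
  · intro e he
    rw [mem_coe, mem_filter] at he
    obtain ⟨he1, he2, he3⟩ := he
    unfold redge at he1
    rw [mem_filter, mem_product, mem_pball, mem_pball] at he1
    obtain ⟨⟨⟨h1, h2⟩, h3, h4⟩, h5⟩ := he1
    rw [mem_coe, mem_filter]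
    refine ⟨?_, he3, ?_⟩
    · unfold redge
      rw [mem_filter, mem_product, mem_pball, mem_pball]
      refine ⟨⟨⟨h3, h4⟩, ?_, ?_⟩, ?_⟩
      · unfold prim at h1 ⊢
        simpa using h1
      · simp only
        have : nm (-e.1) = nm e.1 := by simp [nm]
        rw [this]
        exact h2
      · unfold dt at h5 ⊢
        simp only [Zsqrtd.re_neg, Zsqrtd.im_neg]
        linarith
    · simp only
      have : -e.1 - -v₀ = -(e.1 - v₀) := by ring
      rw [this, dvd_neg]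
      exact he2
  · intro e _ e' _ h
    simp only [Prod.mk.injEq, neg_inj] at h
    exact Prod.ext h.2 h.1

theorem asym (A : ℕ) : ∃ X₀ : ℝ, 3 ≤ X₀ ∧ ∀ X : ℝ, X₀ ≤ X →
    2076 * Real.log X ^ (6 * A + 1) ≤ X ^ (1 / 100 : ℝ) := by
  have h := isLittleO_log_rpow_rpow_atTop (s := 1 / 100) ((6 * A + 1 : ℕ) : ℝ) (by norm_num)
  have h2 := h.bound (show (0 : ℝ) < 1 / 2076 by norm_num)
  rw [Filter.eventually_atTop] at h2
  obtain ⟨X₀, hX₀⟩ := h2
  refine ⟨max 3 X₀, le_max_left _ _, fun X hX => ?_⟩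
  have h3 : 3 ≤ X := (le_max_left _ _).trans hX
  have h4 := hX₀ X ((le_max_right _ _).trans hX)
  have hlog : 0 ≤ Real.log X := Real.log_nonneg (by linarith)
  rw [Real.rpow_natCast, Real.norm_of_nonneg (by positivity),
    Real.norm_of_nonneg (by positivity)] at h4
  linarith

theorem BB_le (A : ℕ) (X X₁ X₂ : ℝ) (hX3 : 3 ≤ X)
    (hX : 2076 * Real.log X ^ (6 * A + 1) ≤ X ^ (1 / 100 : ℝ))
    (h1 : 1 ≤ X₁) (h12 : X₁ ≤ X₂) (hprod : X₁ * X₂ ≤ X ^ 2) (h2 : X₂ ≤ X * Real.log X ^ A)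
    (M : ℕ) (hM : 1 ≤ M) (hMA : (M : ℝ) ≤ Real.log X ^ A) :
    4 * BB ⌊Real.sqrt X₁⌋₊ ⌊Real.sqrt X₂⌋₊ M ⌊X ^ (1 / 100 : ℝ)⌋₊ ≤ 1729 * X / (M : ℝ) ^ 3 := by
  have hX0 : 0 < X := by linarith
  have hMr : (1 : ℝ) ≤ M := by exact_mod_cast hM
  set L := Real.log X with hL
  have hL1 : 1 ≤ L := by
    rw [hL, Real.le_log_iff_exp_le hX0]
    have := Real.exp_one_lt_three
    linarith
  set Y := ⌊Real.sqrt X₁⌋₊ with hY
  set D := ⌊Real.sqrt X₂⌋₊ with hD
  set E := ⌊X ^ (1 / 100 : ℝ)⌋₊ with hE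
  have hX2 : 1 ≤ X₂ := h1.trans h12
  have hYle : (Y : ℝ) ≤ Real.sqrt X₁ := Nat.floor_le (Real.sqrt_nonneg _)
  have hDle : (D : ℝ) ≤ Real.sqrt X₂ := Nat.floor_le (Real.sqrt_nonneg _)
  have hY1 : (1 : ℝ) ≤ Y := by
    have : 1 ≤ Y := by
      apply Nat.le_floor
      rw [Nat.cast_one]
      exact Real.one_le_sqrt.2 h1
    exact_mod_cast this
  have hD1 : (1 : ℝ) ≤ D := by
    have : 1 ≤ D := by
      apply Nat.le_floor
      rw [Nat.cast_one]
      exact Real.one_le_sqrt.2 hX2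
    exact_mod_cast this
  have hYD : (Y : ℝ) * D ≤ X := by
    calc (Y : ℝ) * D ≤ Real.sqrt X₁ * Real.sqrt X₂ := by gcongr
      _ = Real.sqrt (X₁ * X₂) := (Real.sqrt_mul (by linarith) _).symm
      _ ≤ Real.sqrt (X ^ 2) := Real.sqrt_le_sqrt hprod
      _ = X := Real.sqrt_sq hX0.le
  have hX1X : X₁ ≤ X := by
    by_contra hlt
    push Not at hlt
    nlinarith
  have hYX : (Y : ℝ) ≤ X ^ (1 / 2 : ℝ) := by
    rw [← Real.sqrt_eq_rpow]
    exact hYle.trans (Real.sqrt_le_sqrt hX1X)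
  have hLA : 1 ≤ L ^ A := one_le_pow₀ hL1
  have hDX : (D : ℝ) ≤ X ^ (1 / 2 : ℝ) * L ^ A := by
    refine hDle.trans ?_
    rw [Real.sqrt_le_left (by positivity)]
    rw [mul_pow, ← Real.rpow_natCast (X ^ (1 / 2 : ℝ)), ← Real.rpow_mul hX0.le]
    norm_num
    refine h2.trans ?_
    apply mul_le_mul_of_nonneg_left _ hX0.le
    nlinarith
  have hXs1 : 1 ≤ X ^ (1 / 100 : ℝ) := Real.one_le_rpow (by linarith) (by norm_num)
  have hEle : (E : ℝ) ≤ X ^ (1 / 100 : ℝ) := Nat.floor_le (by positivity)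
  have hEge : X ^ (1 / 100 : ℝ) / 2 ≤ (E : ℝ) := by
    have h3 : X ^ (1 / 100 : ℝ) < (E : ℝ) + 1 := Nat.lt_floor_add_one _
    have h4 : (1 : ℝ) ≤ E := by
      have : 1 ≤ E := by
        apply Nat.le_floor
        rw [Nat.cast_one]; exact hXs1
      exact_mod_cast this
    linarith
  have hE0 : (0 : ℝ) < E := by linarith
  have hlogY0 : 0 ≤ Real.log Y := Real.log_nonneg hY1
  have hlogY : 4 + Real.log Y ≤ 5 * L := by
    have h3 : (Y : ℝ) ≤ X := by
      calc (Y : ℝ) ≤ Y * D := by nlinarith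
        _ ≤ X := hYD
    have : Real.log Y ≤ L := Real.log_le_log (by linarith) h3
    linarith
  -- powers of `X`
  have hpw : ∀ s : ℝ, s ≤ 99 / 100 → X ^ s ≤ X ^ (99 / 100 : ℝ) := fun s hs =>
    Real.rpow_le_rpow_of_exponent_le (by linarith) hs
  have hM2 : (M : ℝ) ^ 2 ≤ L ^ (2 * A) := by
    rw [mul_comm, pow_mul]
    exact pow_le_pow_left₀ (by linarith) hMA 2
  have hM3 : (M : ℝ) ^ 3 ≤ L ^ (3 * A) := by
    rw [mul_comm, pow_mul]
    exact pow_le_pow_left₀ (by linarith) hMA 3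
  have hE3 : (E : ℝ) ^ 3 ≤ X ^ (3 / 100 : ℝ) := by
    calc (E : ℝ) ^ 3 ≤ (X ^ (1 / 100 : ℝ)) ^ 3 := pow_le_pow_left₀ hE0.le hEle 3
      _ = X ^ (3 / 100 : ℝ) := by
        rw [← Real.rpow_natCast, ← Real.rpow_mul hX0.le]; norm_num
  have hY19 : (Y : ℝ) ^ (19 / 10 : ℝ) ≤ X ^ (95 / 100 : ℝ) := by
    calc (Y : ℝ) ^ (19 / 10 : ℝ) ≤ (X ^ (1 / 2 : ℝ)) ^ (19 / 10 : ℝ) := by gcongr
      _ = X ^ (95 / 100 : ℝ) := by rw [← Real.rpow_mul hX0.le]; norm_num
  set Z : ℝ := X ^ (99 / 100 : ℝ) * L ^ (3 * A + 1) with hZ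
  have hX99 : 0 < X ^ (99 / 100 : ℝ) := by positivity
  have hLp : ∀ k : ℕ, k ≤ 3 * A + 1 → L ^ k ≤ L ^ (3 * A + 1) := fun k hk =>
    pow_le_pow_right₀ hL1 hk
  -- terms
  have t1 : 432 * ((Y : ℝ) * D / (M : ℝ) ^ 3) ≤ 432 * (X / (M : ℝ) ^ 3) := by
    gcongr
  have t2 : 432 * (D : ℝ) / (M : ℝ) ^ 2 ≤ 432 * Z := by
    calc 432 * (D : ℝ) / (M : ℝ) ^ 2 ≤ 432 * D := by
          apply div_le_self (by positivity)
          exact one_le_pow₀ hMr
      _ ≤ 432 * (X ^ (1 / 2 : ℝ) * L ^ A) := by gcongr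
      _ ≤ 432 * Z := by
          rw [hZ]
          have e1 := hpw (1 / 2) (by norm_num)
          have e2 := hLp A (by omega)
          gcongr
  have t3 : 12 * (E : ℝ) ^ 3 * (M : ℝ) ^ 2 * (4 + Real.log Y) * (Y : ℝ) ^ (19 / 10 : ℝ) ≤
      60 * Z := by
    calc 12 * (E : ℝ) ^ 3 * (M : ℝ) ^ 2 * (4 + Real.log Y) * (Y : ℝ) ^ (19 / 10 : ℝ)
        ≤ 12 * X ^ (3 / 100 : ℝ) * L ^ (2 * A) * (5 * L) * X ^ (95 / 100 : ℝ) := by
          gcongr
      _ = 60 * ((X ^ (3 / 100 : ℝ) * X ^ (95 / 100 : ℝ)) * L ^ (2 * A + 1)) := by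
          rw [pow_succ]; ring
      _ = 60 * (X ^ (98 / 100 : ℝ) * L ^ (2 * A + 1)) := by
          rw [← Real.rpow_add hX0]; norm_num
      _ ≤ 60 * Z := by
          rw [hZ]
          have e1 := hpw (98 / 100) (by norm_num)
          have e2 := hLp (2 * A + 1) (by omega)
          gcongr
  have t4 : 9 * (D : ℝ) * ((E : ℝ) ^ 3 * (M : ℝ) ^ 2 + Y / E) ≤ 27 * Z := by
    have s1 : 9 * (D : ℝ) * ((E : ℝ) ^ 3 * (M : ℝ) ^ 2) ≤ 9 * Z := by
      calc 9 * (D : ℝ) * ((E : ℝ) ^ 3 * (M : ℝ) ^ 2)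
          ≤ 9 * (X ^ (1 / 2 : ℝ) * L ^ A) * (X ^ (3 / 100 : ℝ) * L ^ (2 * A)) := by gcongr
        _ = 9 * ((X ^ (1 / 2 : ℝ) * X ^ (3 / 100 : ℝ)) * L ^ (3 * A)) := by
            have : L ^ (3 * A) = L ^ A * L ^ (2 * A) := by rw [← pow_add]; congr 1; ring
            rw [this]; ring
        _ = 9 * (X ^ (53 / 100 : ℝ) * L ^ (3 * A)) := by
            rw [← Real.rpow_add hX0]; norm_num
        _ ≤ 9 * Z := by
            rw [hZ]
            have e1 := hpw (53 / 100) (by norm_num)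
            have e2 := hLp (3 * A) (by omega)
            gcongr
    have s2 : 9 * (D : ℝ) * (Y / E) ≤ 18 * Z := by
      calc 9 * (D : ℝ) * (Y / E) = 9 * (Y * D) / E := by ring
        _ ≤ 9 * X / (X ^ (1 / 100 : ℝ) / 2) := by gcongr
        _ = 18 * (X / X ^ (1 / 100 : ℝ)) := by
            have : X ^ (1 / 100 : ℝ) ≠ 0 := by positivity
            field_simp
            norm_num
        _ = 18 * X ^ (99 / 100 : ℝ) := by
            congr 1
            nth_rewrite 1 [← Real.rpow_one X]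
            rw [← Real.rpow_sub hX0]
            norm_num
        _ ≤ 18 * Z := by
            rw [hZ]
            have e2 : 1 ≤ L ^ (3 * A + 1) := one_le_pow₀ hL1
            nlinarith
    calc 9 * (D : ℝ) * ((E : ℝ) ^ 3 * (M : ℝ) ^ 2 + Y / E)
        = 9 * (D : ℝ) * ((E : ℝ) ^ 3 * (M : ℝ) ^ 2) + 9 * (D : ℝ) * (Y / E) := by ring
      _ ≤ 9 * Z + 18 * Z := add_le_add s1 s2
      _ = 27 * Z := by ring
  have tZ : 2076 * Z ≤ X / (M : ℝ) ^ 3 := by
    have h3 : X / L ^ (3 * A) ≤ X / (M : ℝ) ^ 3 := by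
      apply div_le_div_of_nonneg_left hX0.le (by positivity) hM3
    refine le_trans ?_ h3
    rw [le_div_iff₀ (by positivity), hZ]
    calc 2076 * (X ^ (99 / 100 : ℝ) * L ^ (3 * A + 1)) * L ^ (3 * A)
        = X ^ (99 / 100 : ℝ) * (2076 * L ^ (6 * A + 1)) := by
          have : L ^ (6 * A + 1) = L ^ (3 * A + 1) * L ^ (3 * A) := by
            rw [← pow_add]; congr 1; ring
          rw [this]; ring
      _ ≤ X ^ (99 / 100 : ℝ) * X ^ (1 / 100 : ℝ) := by gcongr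
      _ = X := by rw [← Real.rpow_add hX0]; norm_num
  have hZ0 : 0 ≤ Z := by positivity
  unfold BB
  have : 1729 * X / (M : ℝ) ^ 3 = 1728 * (X / (M : ℝ) ^ 3) + X / (M : ℝ) ^ 3 := by ring
  rw [this]
  linarith

/-- GP-1 -/
theorem equ : S_EQU := by
  refine ⟨1729, by norm_num, fun A => ?_⟩
  obtain ⟨X₀, hX₀3, hX₀⟩ := asym A
  refine ⟨X₀, ?_⟩
  intro X X₁ X₂ M v₀ u₀ hX h1 h2 hprod hA1 hA2 hM hMA
  have hX3 : 3 ≤ X := hX₀3.trans hX
  have hE : 1 ≤ ⌊X ^ (1 / 100 : ℝ)⌋₊ := by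
    apply Nat.le_floor
    rw [Nat.cast_one]
    exact Real.one_le_rpow (by linarith) (by norm_num)
  rcases le_total X₁ X₂ with h12 | h12
  · exact (half X₁ X₂ h1 h12 M _ hM hE v₀ u₀).trans
      (BB_le A X X₁ X₂ hX3 (hX₀ X hX) h1 h12 hprod hA2 M hM hMA)
  · have hs := swap X₁ X₂ M v₀ u₀
    have hs' := half X₂ X₁ h2 h12 M _ hM hE u₀ (-v₀)
    have hb := BB_le A X X₂ X₁ hX3 (hX₀ X hX) h2 h12 (by linarith) hA1 M hM hMA
    refine le_trans ?_ (hs'.trans hb)
    exact_mod_cast hs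

end Pool.Agent.W591.GM
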