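import Pool.Agent.H442R2.KF.Inc

/-!
Fejer majorant: points in short intervals modulo `q` from exponential sums.
-/

namespace Pool.Agent.W591.GM

open Finset

/-- few members of a progression in an interval -/
theorem card_prog (R : ℕ) (hR : 0 < R) (r A B : ℤ) (hAB : A ≤ B) :
    ((((Icc A B).filter (fun m : ℤ => m ≡ r [ZMOD R])).card : ℕ) : ℝ) ≤ ((B : ℝ) - A) / R + 1 := by
  obtain ⟨m₀, H, hH, hS⟩ := Pool.Agent.H442R2.KF.Inc.prog R hR r A B hAB
  rw [hS]
  refine le_trans ?_ hH
  have := Finset.card_image_le (s := range H) (f := fun k : ℕ => m₀ + (R : ℤ) * k)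
  rw [card_range] at this
  exact_mod_cast this

theorem conj_char {q : ℕ} [NeZero q] (x : ZMod q) :
    (starRingEnd ℂ) (ZMod.stdAddChar x) = ZMod.stdAddChar (-x) := by
  rw [← AddChar.map_neg_eq_conj]

theorem norm_char {q : ℕ} [NeZero q] (x : ZMod q) : ‖ZMod.stdAddChar x‖ = 1 := by
  exact AddChar.norm_apply _ _

/-- the square of the norm of a short geometric sum -/
theorem sq_sum {q : ℕ} [NeZero q] (H : ℕ) (x : ZMod q) :
    ((‖∑ j ∈ range H, ZMod.stdAddChar ((j : ZMod q) * x)‖ ^ 2 : ℝ) : ℂ) =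
      ∑ j ∈ range H, ∑ k ∈ range H, ZMod.stdAddChar ((((j : ℤ) - k : ℤ) : ZMod q) * x) := by
  rw [← Complex.normSq_eq_norm_sq, ← Complex.mul_conj, map_sum, Finset.sum_mul_sum]
  refine Finset.sum_congr rfl fun j _ => Finset.sum_congr rfl fun k _ => ?_
  rw [conj_char, ← AddChar.map_add_eq_mul]
  congr 1
  push_cast
  ring

theorem fejer_upper {q : ℕ} [NeZero q] {ι : Type*} (S : Finset ι) (w : ι → ZMod q) (t₀ : ZMod q)
    (H : ℕ) (E : ℝ) (hE0 : 0 ≤ E)
    (hE : ∀ h : ℤ, h ≠ 0 → |h| < H → ‖∑ a ∈ S, ZMod.stdAddChar ((h : ZMod q) * w a)‖ ≤ E) :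
    ∑ a ∈ S, ‖∑ j ∈ range H, ZMod.stdAddChar ((j : ZMod q) * (w a - t₀))‖ ^ 2 ≤
      H * S.card + (H : ℝ) ^ 2 * E := by
  have h1 : ((∑ a ∈ S, ‖∑ j ∈ range H, ZMod.stdAddChar ((j : ZMod q) * (w a - t₀))‖ ^ 2 : ℝ) : ℂ) =
      ∑ j ∈ range H, ∑ k ∈ range H,
        ZMod.stdAddChar (-((((j : ℤ) - k : ℤ) : ZMod q) * t₀)) *
        ∑ a ∈ S, ZMod.stdAddChar ((((j : ℤ) - k : ℤ) : ZMod q) * w a) := by
    rw [Complex.ofReal_sum]
    rw [Finset.sum_congr rfl (fun a _ => sq_sum H (w a - t₀))]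
    rw [Finset.sum_comm]
    refine Finset.sum_congr rfl fun j _ => ?_
    rw [Finset.sum_comm]
    refine Finset.sum_congr rfl fun k _ => ?_
    rw [Finset.mul_sum]
    refine Finset.sum_congr rfl fun a _ => ?_
    rw [← AddChar.map_add_eq_mul]
    congr 1
    ring
  have h2 : (∑ a ∈ S, ‖∑ j ∈ range H, ZMod.stdAddChar ((j : ZMod q) * (w a - t₀))‖ ^ 2 : ℝ) =
      ‖∑ j ∈ range H, ∑ k ∈ range H,
        ZMod.stdAddChar (-((((j : ℤ) - k : ℤ) : ZMod q) * t₀)) *
        ∑ a ∈ S, ZMod.stdAddChar ((((j : ℤ) - k : ℤ) : ZMod q) * w a)‖ := by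
    rw [← h1, Complex.norm_real, Real.norm_of_nonneg]
    exact Finset.sum_nonneg fun a _ => by positivity
  rw [h2]
  refine (norm_sum_le _ _).trans ?_
  have h3 : ∀ j ∈ range H, ‖∑ k ∈ range H,
        ZMod.stdAddChar (-((((j : ℤ) - k : ℤ) : ZMod q) * t₀)) *
        ∑ a ∈ S, ZMod.stdAddChar ((((j : ℤ) - k : ℤ) : ZMod q) * w a)‖ ≤
        (S.card : ℝ) + H * E := by
    intro j hj
    refine (norm_sum_le _ _).trans ?_
    have h4 : ∀ k ∈ range H, ‖ZMod.stdAddChar (-((((j : ℤ) - k : ℤ) : ZMod q) * t₀)) *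
        ∑ a ∈ S, ZMod.stdAddChar ((((j : ℤ) - k : ℤ) : ZMod q) * w a)‖ ≤
        (if k = j then (S.card : ℝ) else 0) + E := by
      intro k hk
      rw [norm_mul, norm_char, one_mul]
      by_cases hkj : k = j
      · subst hkj
        rw [if_pos rfl]
        have : ‖∑ a ∈ S, ZMod.stdAddChar ((((k : ℤ) - k : ℤ) : ZMod q) * w a)‖ ≤ (S.card : ℝ) := by
          refine (norm_sum_le _ _).trans ?_
          rw [Finset.sum_congr rfl (fun a _ => norm_char _)]
          simp
        linarith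
      · rw [if_neg hkj, zero_add]
        apply hE
        · intro h0
          apply hkj
          have : (j : ℤ) = k := by linarith
          exact_mod_cast this.symm
        · rw [mem_range] at hj hk
          rw [abs_lt]
          constructor <;> omega
    refine (Finset.sum_le_sum h4).trans ?_
    rw [Finset.sum_add_distrib, Finset.sum_ite_eq' (range H) j, if_pos hj, Finset.sum_const,
      card_range, nsmul_eq_mul]
  refine (Finset.sum_le_sum h3).trans ?_
  rw [Finset.sum_const, card_range, nsmul_eq_mul]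
  nlinarith

theorem fejer_lower {q : ℕ} [NeZero q] (H : ℕ) (s : ℕ) (hs : 6 * s * H ≤ q) :
    (H : ℝ) / 2 ≤ ‖∑ j ∈ range H, ZMod.stdAddChar ((j : ZMod q) * ((s : ℕ) : ZMod q))‖ := by
  have hq : (0 : ℝ) < q := by exact_mod_cast Nat.pos_of_ne_zero (NeZero.ne q)
  refine le_trans ?_ (Complex.re_le_norm _)
  rw [Complex.re_sum]
  have h1 : ∀ j ∈ range H, (1 / 2 : ℝ) ≤
      (ZMod.stdAddChar ((j : ZMod q) * ((s : ℕ) : ZMod q))).re := by
    intro j hj
    rw [mem_range] at hj
    have h2 : ((j : ZMod q) * ((s : ℕ) : ZMod q)) = (((j * s : ℕ) : ℤ) : ZMod q) := by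
      push_cast; ring
    rw [h2, ZMod.stdAddChar_coe]
    have h3 : (2 * Real.pi * Complex.I * (((j * s : ℕ) : ℤ) : ℂ) / (q : ℂ)) =
        ((2 * Real.pi * ((j * s : ℕ) : ℝ) / q : ℝ) : ℂ) * Complex.I := by
      push_cast; ring
    rw [h3, Complex.exp_ofReal_mul_I_re]
    have h4 : (6 : ℝ) * ((j * s : ℕ) : ℝ) ≤ q := by
      have : 6 * (j * s) ≤ q := by
        refine le_trans ?_ hs
        calc 6 * (j * s) = 6 * s * j := by ring
          _ ≤ 6 * s * H := Nat.mul_le_mul_left _ hj.le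
      exact_mod_cast this
    have h5 : 2 * Real.pi * ((j * s : ℕ) : ℝ) / q ≤ Real.pi / 3 := by
      rw [div_le_iff₀ hq]
      have := Real.pi_pos
      nlinarith
    have h6 : 0 ≤ 2 * Real.pi * ((j * s : ℕ) : ℝ) / q := by
      have := Real.pi_pos
      positivity
    rw [← Real.cos_pi_div_three]
    exact Real.cos_le_cos_of_nonneg_of_le_pi h6 (by have := Real.pi_pos; linarith) h5
  calc (H : ℝ) / 2 = ∑ j ∈ range H, (1 / 2 : ℝ) := by
        rw [Finset.sum_const, card_range, nsmul_eq_mul]; ring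
    _ ≤ _ := Finset.sum_le_sum h1

/-- Lemma F. -/
theorem lemmaF {q : ℕ} [NeZero q] {ι : Type*} (S : Finset ι) (w : ι → ZMod q) (t₀ : ℤ)
    (T : ℕ) (hT : 1 ≤ T) (E : ℝ) (hE0 : 0 ≤ E)
    (hE : ∀ h : ℤ, h ≠ 0 → 6 * T * |h| ≤ q →
      ‖∑ a ∈ S, ZMod.stdAddChar ((h : ZMod q) * w a)‖ ≤ E) :
    (∑ a ∈ S, (((Ico t₀ (t₀ + T)).filter (fun t : ℤ => (t : ZMod q) = w a)).card : ℝ)) ≤
      48 * ((T : ℝ) / q) * S.card + 4 * E := by
  have hq0 : 0 < q := Nat.pos_of_ne_zero (NeZero.ne q)
  have hq : (0 : ℝ) < q := by exact_mod_cast hq0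
  have hT' : (1 : ℝ) ≤ T := by exact_mod_cast hT
  by_cases hqT : q < 6 * T
  · -- trivial bound
    have h1 : ∀ a ∈ S, (((Ico t₀ (t₀ + T)).filter (fun t : ℤ => (t : ZMod q) = w a)).card : ℝ) ≤
        48 * ((T : ℝ) / q) := by
      intro a _
      obtain ⟨r, hr⟩ := ZMod.intCast_surjective (w a)
      have h2 : (Ico t₀ (t₀ + T)).filter (fun t : ℤ => (t : ZMod q) = w a) =
          (Icc t₀ (t₀ + T - 1)).filter (fun t : ℤ => t ≡ r [ZMOD q]) := by
        ext t
        rw [mem_filter, mem_filter, mem_Ico, mem_Icc, ← hr, ZMod.intCast_eq_intCast_iff]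
        constructor
        · rintro ⟨⟨h3, h4⟩, h5⟩
          exact ⟨⟨h3, by omega⟩, h5⟩
        · rintro ⟨⟨h3, h4⟩, h5⟩
          exact ⟨⟨h3, by omega⟩, h5⟩
      rw [h2]
      refine (card_prog q hq0 r _ _ (by omega)).trans ?_
      push_cast
      have h3 : (q : ℝ) < 6 * T := by exact_mod_cast hqT
      have h4 : (1 : ℝ) ≤ 6 * (T / q) := by
        rw [← mul_div_assoc, le_div_iff₀ hq]; linarith
      have h5 : ((t₀ : ℝ) + T - 1 - t₀) / q ≤ T / q := by
        apply div_le_div_of_nonneg_right _ hq.le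
        linarith
      have h6 : 0 ≤ (T : ℝ) / q := by positivity
      linarith
    have h7 := Finset.sum_le_sum h1
    rw [Finset.sum_const, nsmul_eq_mul] at h7
    linarith
  · push Not at hqT
    set H : ℕ := q / (6 * T) with hH
    have hH1 : 1 ≤ H := by
      rw [hH, Nat.one_le_div_iff (by omega)]
      exact hqT
    have hH2 : 6 * T * H ≤ q := Nat.mul_div_le _ _
    have hH3 : (q : ℝ) ≤ 12 * T * H := by
      have h1 : q < 6 * T * (H + 1) := by
        have := Nat.lt_mul_div_succ q (show 0 < 6 * T by omega)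
        exact this
      have h2 : 6 * T * (H + 1) ≤ 12 * T * H := by nlinarith
      have h3 : q ≤ 12 * T * H := by omega
      exact_mod_cast h3
    have hHr : (1 : ℝ) ≤ H := by exact_mod_cast hH1
    have h1 : ∀ a ∈ S, (((Ico t₀ (t₀ + T)).filter (fun t : ℤ => (t : ZMod q) = w a)).card : ℝ) ≤
        4 / (H : ℝ) ^ 2 *
          ‖∑ j ∈ range H, ZMod.stdAddChar ((j : ZMod q) * (w a - (t₀ : ZMod q)))‖ ^ 2 := by
      intro a _
      by_cases hne : ((Ico t₀ (t₀ + T)).filter (fun t : ℤ => (t : ZMod q) = w a)).Nonempty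
      · obtain ⟨t, ht⟩ := hne
        rw [mem_filter, mem_Ico] at ht
        obtain ⟨⟨ht1, ht2⟩, ht3⟩ := ht
        have hcard : ((Ico t₀ (t₀ + T)).filter (fun t : ℤ => (t : ZMod q) = w a)).card ≤ 1 := by
          rw [Finset.card_le_one]
          intro x hx y hy
          rw [mem_filter, mem_Ico] at hx hy
          have h2 : ((x : ℤ) : ZMod q) = y := by rw [hx.2, hy.2]
          rw [ZMod.intCast_eq_intCast_iff_dvd_sub] at h2
          obtain ⟨m, hm⟩ := h2
          have hTq : (T : ℤ) < q := by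
            have : T < q := by omega
            exact_mod_cast this
          have hm0 : m = 0 := by
            by_contra hm0
            rcases lt_or_gt_of_ne hm0 with h | h
            · have : (q : ℤ) * m ≤ q * (-1) := by
                apply mul_le_mul_of_nonneg_left (by omega) (by positivity)
              omega
            · have : (q : ℤ) * 1 ≤ q * m := by
                apply mul_le_mul_of_nonneg_left (by omega) (by positivity)
              omega
          rw [hm0, mul_zero] at hm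
          omega
        obtain ⟨s, hs⟩ : ∃ s : ℕ, (s : ℤ) = t - t₀ := ⟨(t - t₀).toNat, Int.toNat_of_nonneg (by omega)⟩
        have hsT : s < T := by omega
        have h3 : w a - (t₀ : ZMod q) = ((s : ℕ) : ZMod q) := by
          rw [← ht3]
          have : ((s : ℕ) : ZMod q) = ((s : ℤ) : ZMod q) := by push_cast; rfl
          rw [this, hs]
          push_cast
          ring
        have h4 := fejer_lower (q := q) H s (by
          refine le_trans ?_ hH2
          apply Nat.mul_le_mul_right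
          omega)
        rw [h3]
        have h5 : ((H : ℝ) / 2) ^ 2 ≤
            ‖∑ j ∈ range H, ZMod.stdAddChar ((j : ZMod q) * ((s : ℕ) : ZMod q))‖ ^ 2 := by
          gcongr
        have h6 : (1 : ℝ) ≤ 4 / (H : ℝ) ^ 2 *
            ‖∑ j ∈ range H, ZMod.stdAddChar ((j : ZMod q) * ((s : ℕ) : ZMod q))‖ ^ 2 := by
          calc (1 : ℝ) = 4 / (H : ℝ) ^ 2 * ((H : ℝ) / 2) ^ 2 := by field_simp; norm_num
            _ ≤ _ := by
              apply mul_le_mul_of_nonneg_left h5
              positivity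
        refine le_trans ?_ h6
        exact_mod_cast hcard
      · rw [not_nonempty_iff_eq_empty] at hne
        rw [hne]
        simp only [card_empty, Nat.cast_zero]
        positivity
    refine (Finset.sum_le_sum h1).trans ?_
    rw [← Finset.mul_sum]
    have h2 := fejer_upper S w (t₀ : ZMod q) H E hE0 (fun h h0 hlt => hE h h0 (by
      have : (6 * T * |h| : ℤ) ≤ ((6 * T * H : ℕ) : ℤ) := by
        push_cast
        apply mul_le_mul_of_nonneg_left hlt.le
        positivity
      refine this.trans ?_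
      exact_mod_cast hH2))
    calc 4 / (H : ℝ) ^ 2 * _ ≤ 4 / (H : ℝ) ^ 2 * (H * S.card + (H : ℝ) ^ 2 * E) := by
          apply mul_le_mul_of_nonneg_left h2
          positivity
      _ = 4 * ((1 : ℝ) / H) * S.card + 4 * E := by field_simp
      _ ≤ 48 * ((T : ℝ) / q) * S.card + 4 * E := by
          have h3 : (1 : ℝ) / H ≤ 12 * (T / q) := by
            rw [← mul_div_assoc, div_le_div_iff₀ (by linarith) hq]
            linarith
          have h4 : (0 : ℝ) ≤ S.card := by positivity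
          nlinarith

end Pool.Agent.W591.GM
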