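import Pool.Agent.H442R2.KF.Inc
import Pool.Agent.W591.GM.Fej

/-!
Incomplete Kloosterman sums with a frequency not coprime to the modulus.
-/

namespace Pool.Agent.W591.GM

open Finset

theorem char_scale (e q : ℕ) (he : 0 < e) (hq : 0 < q) [NeZero q] [NeZero (e * q)] (j : ℤ) :
    ZMod.stdAddChar (((e * j : ℤ)) : ZMod (e * q)) = ZMod.stdAddChar ((j : ℤ) : ZMod q) := by
  rw [ZMod.stdAddChar_coe, ZMod.stdAddChar_coe]
  congr 1
  have h1 : ((e : ℕ) : ℂ) ≠ 0 := by exact_mod_cast he.ne'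
  have h2 : ((q : ℕ) : ℂ) ≠ 0 := by exact_mod_cast hq.ne'
  push_cast
  field_simp

/-- for `a` coprime to `q` the inverse is given by an integer -/
theorem exists_inv_int (q : ℕ) (a : ℤ) (h : Int.gcd a q = 1) : ∃ v : ℤ, (q : ℤ) ∣ a * v - 1 := by
  have h1 : IsCoprime a (q : ℤ) := Int.isCoprime_iff_gcd_eq_one.2 h
  obtain ⟨x, y, hxy⟩ := h1
  refine ⟨x, -y, ?_⟩
  linarith

theorem inv_eq_of_dvd {q : ℕ} {a v : ℤ} (h : (q : ℤ) ∣ a * v - 1) :
    ((a : ZMod q))⁻¹ = (v : ZMod q) := by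
  have h1 : ((a : ZMod q)) * (v : ZMod q) = 1 := by
    have : ((a * v - 1 : ℤ) : ZMod q) = 0 := (ZMod.intCast_zmod_eq_zero_iff_dvd _ q).2 h
    push_cast at this
    exact sub_eq_zero.1 this
  exact ZMod.inv_eq_of_mul_eq_one q _ _ h1

open Pool.Agent.H442R2.KF in
/-- the character sum in terms of the smaller modulus -/
theorem char_reduce (e q : ℕ) (he : 0 < e) (hq : 0 < q) [NeZero q] [NeZero (e * q)]
    (h' b a : ℤ) (ha : Int.gcd a (e * q : ℕ) = 1) :
    ZMod.stdAddChar (((e * h' : ℤ) : ZMod (e * q)) * ((b : ZMod (e * q)) *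
      ((a : ZMod (e * q)))⁻¹)) = kf (h' * b) a q := by
  obtain ⟨v, hv⟩ := exists_inv_int (e * q) a ha
  have hv' : (q : ℤ) ∣ a * v - 1 := dvd_trans (by push_cast; exact dvd_mul_left _ _) hv
  rw [kf_eq_char, inv_eq_of_dvd hv, inv_eq_of_dvd hv']
  have h1 : ((e * h' : ℤ) : ZMod (e * q)) * ((b : ZMod (e * q)) * (v : ZMod (e * q))) =
      ((e * (h' * b * v) : ℤ) : ZMod (e * q)) := by
    push_cast; ring
  have h2 : ((h' * b : ℤ) : ZMod q) * (v : ZMod q) = ((h' * b * v : ℤ) : ZMod q) := by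
    push_cast; ring
  rw [h1, h2]
  exact char_scale e q he hq _

/-- CRT for two classes -/
theorem crt_int (R e : ℕ) (h : Nat.Coprime R e) (α r : ℤ) :
    ∃ ρ : ℤ, ρ ≡ α [ZMOD R] ∧ ρ ≡ r [ZMOD e] := by
  have hco : IsCoprime (R : ℤ) (e : ℤ) := Nat.isCoprime_iff_coprime.2 h
  obtain ⟨x, y, hxy⟩ := hco
  refine ⟨α * (y * e) + r * (x * R), ?_, ?_⟩
  · apply Int.ModEq.symm
    rw [Int.modEq_iff_dvd]
    have : α * (y * e) + r * (x * R) - α = R * (x * (r - α)) := by
      have : y * (e : ℤ) = 1 - x * R := by linarith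
      rw [this]; ring
    rw [this]
    exact dvd_mul_right _ _
  · apply Int.ModEq.symm
    rw [Int.modEq_iff_dvd]
    have : α * (y * e) + r * (x * R) - r = e * (y * (α - r)) := by
      have : x * (R : ℤ) = 1 - y * e := by linarith
      rw [this]; ring
    rw [this]
    exact dvd_mul_right _ _

open Pool.Agent.H442R2.KF in
theorem kl_core (e q R : ℕ) (he0 : 0 < e) (hq0 : 0 < q) (hsq : Squarefree q)
    (hcop : Nat.Coprime e q) (hR : 0 < R) (hqR : Nat.Coprime q R) (heR : Nat.Coprime e R)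
    [NeZero q] [NeZero (e * q)] (c : ℤ) (hc : 0 ≤ c) (α b : ℤ) (hb : Int.gcd b q = 1)
    (h' : ℤ) (hgcd : Int.gcd h' q = 1) :
    ‖∑ a ∈ (Icc (-c) c).filter (fun a : ℤ => a ≡ α [ZMOD R] ∧ Int.gcd a ((e * q : ℕ) : ℤ) = 1),
      ZMod.stdAddChar (((e * h' : ℤ) : ZMod (e * q)) *
          ((b : ZMod (e * q)) * ((a : ZMod (e * q)))⁻¹))‖ ≤
      e * (2 ^ q.primeFactors.card * Real.sqrt q * (2 * c / (R * e * q) + 2 + Real.log q)) := by
  have hqr : (0 : ℝ) < q := by exact_mod_cast hq0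
  have hRr : (0 : ℝ) < R := by exact_mod_cast hR
  have hcr : (0 : ℝ) ≤ c := by exact_mod_cast hc
  have hlogq : 0 ≤ Real.log q := Real.log_nonneg (by exact_mod_cast hq0)
  have heZ : (0 : ℤ) < e := by exact_mod_cast he0
  have hhb : Int.gcd (h' * b) q = 1 := by
    apply Int.isCoprime_iff_gcd_eq_one.1
    exact IsCoprime.mul_left (Int.isCoprime_iff_gcd_eq_one.2 hgcd)
      (Int.isCoprime_iff_gcd_eq_one.2 hb)
  set W : ℝ := 2 ^ q.primeFactors.card * Real.sqrt q *
    (2 * c / (R * e * q) + 2 + Real.log q) with hW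
  have hW0 : 0 ≤ W := by
    rw [hW]
    positivity
  have hcls : ∀ r ∈ range e,
      ‖∑ a ∈ ((Icc (-c) c).filter (fun a : ℤ => a ≡ α [ZMOD R] ∧
        Int.gcd a ((e * q : ℕ) : ℤ) = 1)).filter (fun a => (a % (e : ℤ)).toNat = r),
        ZMod.stdAddChar (((e * h' : ℤ) : ZMod (e * q)) *
          ((b : ZMod (e * q)) * ((a : ZMod (e * q)))⁻¹))‖ ≤ W := by
    intro r hr
    rw [mem_range] at hr
    have hmod : ∀ a : ℤ, (a % (e : ℤ)).toNat = r ↔ a ≡ r [ZMOD e] := by
      intro a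
      have h1 : 0 ≤ a % (e : ℤ) := Int.emod_nonneg _ heZ.ne'
      have h2 : ((r : ℕ) : ℤ) % (e : ℤ) = r :=
        Int.emod_eq_of_lt (by positivity) (by exact_mod_cast hr)
      unfold Int.ModEq
      rw [h2]
      omega
    have hgcda : ∀ a : ℤ, Int.gcd a ((e * q : ℕ) : ℤ) = 1 ↔
        Int.gcd a e = 1 ∧ Int.gcd a q = 1 := by
      intro a
      rw [← Int.isCoprime_iff_gcd_eq_one, ← Int.isCoprime_iff_gcd_eq_one,
        ← Int.isCoprime_iff_gcd_eq_one]
      push_cast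
      exact IsCoprime.mul_right_iff
    have hgcdr : ∀ a : ℤ, a ≡ r [ZMOD e] → Int.gcd a e = Int.gcd (r : ℤ) e := by
      intro a ha
      obtain ⟨k, hk⟩ := ha.dvd
      have : (r : ℤ) = a + e * k := by linarith
      rw [this, Int.gcd_add_mul_left_left]
    rw [Finset.filter_filter]
    by_cases hre : Int.gcd (r : ℤ) e = 1
    · obtain ⟨ρ, hρ1, hρ2⟩ := crt_int R e heR.symm α r
      have hset : (Icc (-c) c).filter (fun a : ℤ => (a ≡ α [ZMOD R] ∧
          Int.gcd a ((e * q : ℕ) : ℤ) = 1) ∧ (a % (e : ℤ)).toNat = r) =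
          (Icc (-c) c).filter (fun a : ℤ => a ≡ ρ [ZMOD ((R * e : ℕ) : ℤ)] ∧
            Int.gcd a q = 1) := by
        apply Finset.filter_congr
        intro a _
        rw [hmod, hgcda]
        push_cast
        rw [← Int.modEq_and_modEq_iff_modEq_mul (by
          simpa using heR.symm)]
        constructor
        · rintro ⟨⟨h1, h2, h3⟩, h4⟩
          exact ⟨⟨h1.trans hρ1.symm, h4.trans hρ2.symm⟩, h3⟩
        · rintro ⟨⟨h1, h4⟩, h3⟩
          refine ⟨⟨h1.trans hρ1, ?_, h3⟩, h4.trans hρ2⟩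
          rw [hgcdr a (h4.trans hρ2)]
          exact hre
      rw [hset]
      have hsum : ∑ a ∈ (Icc (-c) c).filter (fun a : ℤ => a ≡ ρ [ZMOD ((R * e : ℕ) : ℤ)] ∧
            Int.gcd a q = 1), ZMod.stdAddChar (((e * h' : ℤ) : ZMod (e * q)) *
          ((b : ZMod (e * q)) * ((a : ZMod (e * q)))⁻¹)) =
          ∑ a ∈ (Icc (-c) c).filter (fun a : ℤ => a ≡ ρ [ZMOD ((R * e : ℕ) : ℤ)] ∧
            Int.gcd a q = 1), kf (h' * b) a q := by
        apply Finset.sum_congr rfl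
        intro a ha
        rw [mem_filter] at ha
        apply char_reduce e q he0 hq0 h' b a
        rw [hgcda]
        refine ⟨?_, ha.2.2⟩
        have h1 := ha.2.1
        push_cast at h1
        rw [← Int.modEq_and_modEq_iff_modEq_mul (by
          simpa using heR.symm)] at h1
        rw [hgcdr a (h1.2.trans hρ2)]
        exact hre
      rw [hsum]
      have hinc := incomplete q (R * e) hsq hq0 (by positivity)
        (Nat.Coprime.mul_right hqR hcop.symm) (h' * b) hhb ρ (-c) c (by linarith)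
      refine hinc.trans (le_of_eq ?_)
      rw [hW]
      push_cast
      ring
    · have hset : (Icc (-c) c).filter (fun a : ℤ => (a ≡ α [ZMOD R] ∧
          Int.gcd a ((e * q : ℕ) : ℤ) = 1) ∧ (a % (e : ℤ)).toNat = r) = ∅ := by
        rw [Finset.filter_eq_empty_iff]
        rintro a _ ⟨⟨_, h2⟩, h3⟩
        rw [hmod] at h3
        rw [hgcda, hgcdr a h3] at h2
        exact hre h2.1
      rw [hset, Finset.sum_empty, norm_zero]
      exact hW0
  rw [← Finset.sum_fiberwise_of_maps_to (t := range e) (g := fun a : ℤ => (a % (e : ℤ)).toNat)]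
  · refine (norm_sum_le _ _).trans ((Finset.sum_le_sum hcls).trans ?_)
    rw [Finset.sum_const, card_range, nsmul_eq_mul]
  · intro a _
    rw [mem_range]
    have h1 : 0 ≤ a % (e : ℤ) := Int.emod_nonneg _ heZ.ne'
    have h2 : a % (e : ℤ) < e := Int.emod_lt_of_pos _ heZ
    omega

theorem kl_bound (q R : ℕ) (hq : Squarefree q) (hq0 : 0 < q) [NeZero q] (hR : 0 < R)
    (hqR : Nat.Coprime q R) (c : ℤ) (hc : 0 ≤ c) (α : ℤ) (b : ℤ) (hb : Int.gcd b q = 1)
    (δ : ZMod q) (h : ℤ) (h0 : h ≠ 0) :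
    ‖∑ a ∈ (Icc (-c) c).filter (fun a : ℤ => a ≡ α [ZMOD R] ∧ Int.gcd a q = 1),
      ZMod.stdAddChar ((h : ZMod q) * ((b : ZMod q) * (((a : ZMod q))⁻¹ - δ)))‖ ≤
      2 ^ q.primeFactors.card * Real.sqrt q *
        (|(h : ℝ)| * (2 * c / (R * q) + 2 + Real.log q)) := by
  have hqr : (0 : ℝ) < q := by exact_mod_cast hq0
  have hRr : (0 : ℝ) < R := by exact_mod_cast hR
  have hcr : (0 : ℝ) ≤ c := by exact_mod_cast hc
  have hlogq : 0 ≤ Real.log q := Real.log_nonneg (by exact_mod_cast hq0)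
  -- step 1
  have s1 : ∑ a ∈ (Icc (-c) c).filter (fun a : ℤ => a ≡ α [ZMOD R] ∧ Int.gcd a q = 1),
      ZMod.stdAddChar ((h : ZMod q) * ((b : ZMod q) * (((a : ZMod q))⁻¹ - δ))) =
      ZMod.stdAddChar (-((h : ZMod q) * (b : ZMod q) * δ)) *
      ∑ a ∈ (Icc (-c) c).filter (fun a : ℤ => a ≡ α [ZMOD R] ∧ Int.gcd a q = 1),
      ZMod.stdAddChar ((h : ZMod q) * ((b : ZMod q) * ((a : ZMod q))⁻¹)) := by
    rw [Finset.mul_sum]
    refine Finset.sum_congr rfl fun a _ => ?_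
    rw [← AddChar.map_add_eq_mul]
    congr 1
    ring
  rw [s1, norm_mul, norm_char, one_mul]
  clear s1
  -- the gcd
  obtain ⟨e, he⟩ : ∃ e : ℕ, e = Int.gcd h q := ⟨_, rfl⟩
  have he0 : 0 < e := by rw [he]; exact Int.gcd_pos_of_ne_zero_left _ h0
  obtain ⟨h', hh'⟩ : (e : ℤ) ∣ h := by rw [he]; exact Int.gcd_dvd_left ..
  obtain ⟨q', hq'⟩ : e ∣ q := by
    have : (e : ℤ) ∣ (q : ℤ) := by rw [he]; exact Int.gcd_dvd_right ..
    exact_mod_cast this
  subst hq'
  subst hh'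
  have hq'0 : 0 < q' := Nat.pos_of_ne_zero (by rintro rfl; simp at hq0)
  have hgcd' : Int.gcd h' q' = 1 := by
    have h1 : Int.gcd ((e : ℤ) * h') ((e * q' : ℕ) : ℤ) = e * Int.gcd h' q' := by
      push_cast
      rw [Int.gcd_mul_left]
      simp
    rw [h1] at he
    have h2 : e * 1 = e * Int.gcd h' q' := by rw [mul_one]; exact he
    exact (Nat.eq_of_mul_eq_mul_left he0 h2).symm
  have hcop : Nat.Coprime e q' := Nat.coprime_of_squarefree_mul hq
  have hsq' : Squarefree q' := hq.squarefree_of_dvd (dvd_mul_left _ _)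
  have heR : Nat.Coprime e R := Nat.Coprime.coprime_dvd_left (dvd_mul_right _ _) hqR
  have hq'R : Nat.Coprime q' R := Nat.Coprime.coprime_dvd_left (dvd_mul_left _ _) hqR
  haveI : NeZero q' := ⟨hq'0.ne'⟩
  have hbq' : Int.gcd b q' = 1 := by
    have h1 : IsCoprime b ((e * q' : ℕ) : ℤ) := Int.isCoprime_iff_gcd_eq_one.2 hb
    apply Int.isCoprime_iff_gcd_eq_one.1
    apply IsCoprime.of_isCoprime_of_dvd_right h1
    push_cast
    exact dvd_mul_left _ _
  have key := kl_core e q' R he0 hq'0 hsq' hcop hR hq'R heR c hc α b hbq' h' hgcd'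
  refine key.trans ?_
  have hq'r : (0 : ℝ) < q' := by exact_mod_cast hq'0
  have her : (1 : ℝ) ≤ e := by exact_mod_cast he0
  have hlogq' : 0 ≤ Real.log q' := Real.log_nonneg (by exact_mod_cast hq'0)
  have b1 : (2 : ℝ) ^ q'.primeFactors.card ≤ 2 ^ (e * q').primeFactors.card := by
    apply pow_le_pow_right₀ (by norm_num)
    apply Finset.card_le_card
    exact Nat.primeFactors_mono (dvd_mul_left _ _) (by positivity)
  have b2 : Real.sqrt q' ≤ Real.sqrt ((e * q' : ℕ) : ℝ) := by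
    apply Real.sqrt_le_sqrt
    push_cast
    nlinarith
  have b3 : Real.log q' ≤ Real.log ((e * q' : ℕ) : ℝ) := by
    apply Real.log_le_log hq'r
    push_cast
    nlinarith
  have b4 : (e : ℝ) ≤ |((e * h' : ℤ) : ℝ)| := by
    have h1 : h' ≠ 0 := by rintro rfl; simp at h0
    have h2 : (1 : ℝ) ≤ |(h' : ℝ)| := by
      have : (1 : ℤ) ≤ |h'| := Int.one_le_abs h1
      exact_mod_cast this
    push_cast
    rw [abs_mul, abs_of_pos (by linarith : (0 : ℝ) < e)]
    nlinarith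
  have b5 : 2 * (c : ℝ) / (R * e * q') + 2 + Real.log q' ≤
      2 * c / (R * ((e * q' : ℕ) : ℝ)) + 2 + Real.log ((e * q' : ℕ) : ℝ) := by
    have : 2 * (c : ℝ) / (R * e * q') = 2 * c / (R * ((e * q' : ℕ) : ℝ)) := by
      push_cast; ring
    rw [this]
    linarith
  have b6 : 0 ≤ 2 * (c : ℝ) / (R * e * q') + 2 + Real.log q' := by positivity
  calc (e : ℝ) * (2 ^ q'.primeFactors.card * Real.sqrt q' *
        (2 * c / (R * e * q') + 2 + Real.log q'))
      = 2 ^ q'.primeFactors.card * Real.sqrt q' *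
        (e * (2 * c / (R * e * q') + 2 + Real.log q')) := by ring
    _ ≤ _ := by
        gcongr

end Pool.Agent.W591.GM
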