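import Pool.Agent.W591.GM.Kl

/-!
The number of pairs `(a, d)` for one lower left entry `c = g q`.
-/

namespace Pool.Agent.W591.GM

open Finset

/-- the error term of one class -/
noncomputable def EE (q M : ℕ) : ℝ :=
  2 ^ q.primeFactors.card * Real.sqrt q * (M * (4 + Real.log q))

/-- the pairs of one class modulo `R` -/
noncomputable def cls (c D : ℤ) (q R : ℕ) (α δ : ℤ) : Finset (ℤ × ℤ) :=
  (Icc (-c) c ×ˢ Icc (-D) D).filter (fun p => p.1 ≡ α [ZMOD R] ∧ p.2 ≡ δ [ZMOD R] ∧
    p.1 * p.2 ≡ 1 [ZMOD q])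

theorem cls_le (g q M D : ℕ) (hq : Squarefree q) (hq0 : 0 < q) (hg : 0 < g) (hM : 1 ≤ M)
    (hqR : Nat.Coprime q (g * M)) (hMq : M ≤ q) (hD : g * q ≤ D) (α δ : ℤ) :
    ((cls ((g * q : ℕ) : ℤ) D q (g * M) α δ).card : ℝ) ≤
      432 * D / (g * (M : ℝ) ^ 2) + 4 * EE q M := by
  haveI : NeZero q := ⟨hq0.ne'⟩
  set R : ℕ := g * M with hRdef
  have hR : 0 < R := by rw [hRdef]; positivity
  set c : ℕ := g * q with hc
  have hc0 : 0 < c := by rw [hc]; positivity
  have hRc : R ≤ c := by rw [hRdef, hc]; exact Nat.mul_le_mul_left _ hMq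
  have hRD : R ≤ D := hRc.trans hD
  have hD0 : 0 < D := lt_of_lt_of_le hR hRD
  have hqr : (0 : ℝ) < q := by exact_mod_cast hq0
  have hRr : (0 : ℝ) < R := by exact_mod_cast hR
  have hMr : (1 : ℝ) ≤ M := by exact_mod_cast hM
  have hgr : (1 : ℝ) ≤ g := by exact_mod_cast hg
  have hDr : (0 : ℝ) < D := by exact_mod_cast hD0
  have hlogq : 0 ≤ Real.log q := Real.log_nonneg (by exact_mod_cast hq0)
  have hRg : (R : ℝ) = g * M := by rw [hRdef]; push_cast; ring
  have hcg : (c : ℝ) = g * q := by rw [hc]; push_cast; ring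
  have hRcr : (R : ℝ) ≤ c := by exact_mod_cast hRc
  have hRDr : (R : ℝ) ≤ D := by exact_mod_cast hRD
  have hcDr : (c : ℝ) ≤ D := by exact_mod_cast hD
  -- inverse of R
  obtain ⟨b, hb⟩ := exists_inv_int q (R : ℤ) (by
    rw [← Int.isCoprime_iff_gcd_eq_one]
    exact (Nat.isCoprime_iff_coprime.2 hqR).symm)
  have hbR : (b : ZMod q) * (R : ZMod q) = 1 := by
    have : ((((R : ℤ)) * b - 1 : ℤ) : ZMod q) = 0 := (ZMod.intCast_zmod_eq_zero_iff_dvd _ q).2 hb
    push_cast at this
    rw [mul_comm]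
    exact sub_eq_zero.1 this
  have hbq : Int.gcd b q = 1 := by
    rw [← Int.isCoprime_iff_gcd_eq_one]
    obtain ⟨y, hy⟩ := hb
    exact ⟨R, -y, by linarith⟩
  -- progression of d
  obtain ⟨m₀, H, hH, hS⟩ := Pool.Agent.H442R2.KF.Inc.prog R hR δ (-(D : ℤ)) D (by omega)
  set T : ℕ := 2 * D / R + 1 with hT
  have hHT : H ≤ T := by
    have h1 : (H : ℝ) * R ≤ 2 * D + R := by
      have h2 : (H : ℝ) ≤ (2 * D) / R + 1 := by
        refine hH.trans (le_of_eq ?_)
        push_cast
        ring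
      calc (H : ℝ) * R ≤ ((2 * D) / R + 1) * R := by
            apply mul_le_mul_of_nonneg_right h2 hRr.le
        _ = 2 * D + R := by field_simp
    have h3 : H * R ≤ 2 * D + R := by exact_mod_cast h1
    rw [hT]
    by_cases hH0 : H = 0
    · rw [hH0]; exact Nat.zero_le _
    · have h4 : (H - 1) * R ≤ 2 * D := by
        rw [Nat.sub_mul, one_mul]
        omega
      have h5 : H - 1 ≤ 2 * D / R := (Nat.le_div_iff_mul_le hR).2 h4
      exact Nat.sub_le_iff_le_add.1 h5
  have hT1 : (T : ℝ) ≤ 3 * D / R := by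
    rw [hT]
    push_cast
    have h1 : ((2 * D / R : ℕ) : ℝ) ≤ 2 * D / R := by
      have := @Nat.cast_div_le ℝ _ _ _ (2 * D) R
      push_cast at this
      exact this
    have h2 : (1 : ℝ) ≤ D / R := by rw [le_div_iff₀ hRr]; linarith
    calc ((2 * D / R : ℕ) : ℝ) + 1 ≤ 2 * D / R + D / R := by linarith
      _ = 3 * D / R := by ring
  have hT2 : 2 * D < T * R := by
    have := Nat.lt_mul_div_succ (2 * D) hR
    rw [hT, Nat.mul_comm _ R]
    exact this
  set S : Finset ℤ := (Icc (-(c : ℤ)) c).filter (fun a : ℤ => a ≡ α [ZMOD R] ∧ Int.gcd a q = 1)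
    with hSdef
  set w : ℤ → ZMod q := fun a => (b : ZMod q) * (((a : ZMod q))⁻¹ - (m₀ : ZMod q)) with hw
  have hE0 : 0 ≤ EE q M := by unfold EE; positivity
  have hF := lemmaF S w 0 T (Nat.le_add_left 1 _) (EE q M) hE0 (by
    intro h h0 hh
    have hhM : |(h : ℝ)| ≤ M := by
      have h1 : (6 : ℝ) * T * |(h : ℝ)| ≤ q := by exact_mod_cast hh
      have h2 : (2 : ℝ) * D ≤ T * R := by exact_mod_cast hT2.le
      have h3 : 0 ≤ |(h : ℝ)| := abs_nonneg _
      have h4 : 6 * (2 * (D : ℝ)) * |(h : ℝ)| ≤ q * R := by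
        calc 6 * (2 * (D : ℝ)) * |(h : ℝ)| ≤ 6 * (T * R) * |(h : ℝ)| := by
              apply mul_le_mul_of_nonneg_right _ h3
              linarith
          _ = (6 * T * |(h : ℝ)|) * R := by ring
          _ ≤ q * R := by
              apply mul_le_mul_of_nonneg_right h1 hRr.le
      have h5 : 6 * (2 * (g * q : ℝ)) * |(h : ℝ)| ≤ q * (g * M) := by
        rw [← hRg, ← hcg]
        refine le_trans ?_ h4
        apply mul_le_mul_of_nonneg_right _ h3
        linarith
      have h6 : (g * q : ℝ) * |(h : ℝ)| ≤ (g * q : ℝ) * M := by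
        have : 0 ≤ (g * q : ℝ) * |(h : ℝ)| := by positivity
        nlinarith
      exact le_of_mul_le_mul_left h6 (by positivity)
    have hkl := kl_bound q R hq hq0 hR hqR (c : ℤ) (by positivity) α b hbq (m₀ : ZMod q) h h0
    refine hkl.trans ?_
    unfold EE
    have h7 : 2 * (((c : ℕ) : ℤ) : ℝ) / (R * q) ≤ 2 := by
      push_cast
      rw [hcg, hRg, div_le_iff₀ (by positivity)]
      have : (0 : ℝ) < g * q := by positivity
      nlinarith
    have h8 : 2 * (((c : ℕ) : ℤ) : ℝ) / (R * q) + 2 + Real.log q ≤ 4 + Real.log q := by linarith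
    have h9 : 0 ≤ 2 * (((c : ℕ) : ℤ) : ℝ) / (R * q) + 2 + Real.log q := by
      push_cast
      positivity
    gcongr)
  -- number of a
  have hScard : (S.card : ℝ) ≤ 3 * c / R := by
    have h1 : S ⊆ (Icc (-(c : ℤ)) c).filter (fun a : ℤ => a ≡ α [ZMOD R]) := by
      intro a ha
      rw [hSdef, mem_filter] at ha
      rw [mem_filter]
      exact ⟨ha.1, ha.2.1⟩
    have h2 : (S.card : ℝ) ≤
        ((((Icc (-(c : ℤ)) c).filter (fun a : ℤ => a ≡ α [ZMOD R])).card : ℕ) : ℝ) := by
      exact_mod_cast Finset.card_le_card h1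
    refine h2.trans ((card_prog R hR α _ _ (by omega)).trans ?_)
    push_cast
    have h3 : (1 : ℝ) ≤ c / R := by rw [le_div_iff₀ hRr]; linarith
    calc ((c : ℝ) - -c) / R + 1 ≤ 2 * c / R + c / R := by
          have : ((c : ℝ) - -c) / R = 2 * c / R := by ring
          linarith
      _ = 3 * c / R := by ring
  -- the injection
  have hcount : ((cls (c : ℤ) D q R α δ).card : ℝ) ≤
      ∑ a ∈ S, (((Ico (0 : ℤ) (0 + T)).filter (fun t : ℤ => (t : ZMod q) = w a)).card : ℝ) := by
    have h1 : (cls (c : ℤ) D q R α δ).card =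
        ∑ a ∈ S, ((cls (c : ℤ) D q R α δ).filter (fun p => p.1 = a)).card := by
      apply Finset.card_eq_sum_card_fiberwise
      intro p hp
      rw [mem_coe] at hp
      unfold cls at hp
      rw [mem_filter, mem_product] at hp
      rw [mem_coe, hSdef, mem_filter]
      refine ⟨hp.1.1, hp.2.1, ?_⟩
      rw [← Int.isCoprime_iff_gcd_eq_one]
      obtain ⟨k, hk⟩ := hp.2.2.2.dvd
      exact ⟨p.2, k, by linarith⟩
    rw [h1]
    push_cast
    apply Finset.sum_le_sum
    intro a ha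
    have h2 : ((cls (c : ℤ) D q R α δ).filter (fun p => p.1 = a)).card ≤
        ((Ico (0 : ℤ) (0 + T)).filter (fun t : ℤ => (t : ZMod q) = w a)).card := by
      apply Finset.card_le_card_of_injOn (fun p => (p.2 - m₀) / (R : ℤ))
      · intro p hp
        rw [mem_coe, mem_filter] at hp
        obtain ⟨hp1, hp2⟩ := hp
        unfold cls at hp1
        rw [mem_filter, mem_product] at hp1
        obtain ⟨⟨h3, h4⟩, h5, h6, h7⟩ := hp1
        have h8 : p.2 ∈ (Icc (-(D : ℤ)) D).filter (fun m : ℤ => m ≡ δ [ZMOD R]) := by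
          rw [mem_filter]
          exact ⟨h4, h6⟩
        rw [hS, mem_image] at h8
        obtain ⟨k, hk1, hk2⟩ := h8
        rw [mem_range] at hk1
        have h9 : (p.2 - m₀) / (R : ℤ) = k := by
          rw [← hk2]
          have : m₀ + (R : ℤ) * k - m₀ = (R : ℤ) * k := by ring
          rw [this, Int.mul_ediv_cancel_left _ (by omega)]
        simp only [h9]
        rw [mem_coe, mem_filter, mem_Ico]
        refine ⟨⟨by omega, by omega⟩, ?_⟩
        rw [hw]
        simp only
        have h10 : (a : ZMod q) * (p.2 : ZMod q) = 1 := by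
          rw [← hp2]
          have := (ZMod.intCast_eq_intCast_iff _ _ q).2 h7
          push_cast at this
          exact this
        have h11 : ((a : ZMod q))⁻¹ = (p.2 : ZMod q) := ZMod.inv_eq_of_mul_eq_one q _ _ h10
        rw [h11, ← hk2]
        push_cast
        have : (b : ZMod q) * ((m₀ : ZMod q) + (R : ZMod q) * (k : ZMod q) - (m₀ : ZMod q)) =
            ((b : ZMod q) * (R : ZMod q)) * (k : ZMod q) := by ring
        rw [this, hbR, one_mul]
      · intro p hp p' hp' heq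
        rw [mem_coe, mem_filter] at hp hp'
        obtain ⟨hp1, hp2⟩ := hp
        obtain ⟨hp1', hp2'⟩ := hp'
        unfold cls at hp1 hp1'
        rw [mem_filter, mem_product] at hp1 hp1'
        have h8 : p.2 ∈ (Icc (-(D : ℤ)) D).filter (fun m : ℤ => m ≡ δ [ZMOD R]) := by
          rw [mem_filter]
          exact ⟨hp1.1.2, hp1.2.2.1⟩
        have h8' : p'.2 ∈ (Icc (-(D : ℤ)) D).filter (fun m : ℤ => m ≡ δ [ZMOD R]) := by
          rw [mem_filter]
          exact ⟨hp1'.1.2, hp1'.2.2.1⟩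
        rw [hS, mem_image] at h8 h8'
        obtain ⟨k, hk1, hk2⟩ := h8
        obtain ⟨k', hk1', hk2'⟩ := h8'
        have hRz : (R : ℤ) ≠ 0 := by omega
        have h9 : (p.2 - m₀) / (R : ℤ) = k := by
          rw [← hk2]
          have : m₀ + (R : ℤ) * k - m₀ = (R : ℤ) * k := by ring
          rw [this, Int.mul_ediv_cancel_left _ hRz]
        have h9' : (p'.2 - m₀) / (R : ℤ) = k' := by
          rw [← hk2']
          have : m₀ + (R : ℤ) * k' - m₀ = (R : ℤ) * k' := by ring
          rw [this, Int.mul_ediv_cancel_left _ hRz]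
        simp only at heq
        rw [h9, h9'] at heq
        apply Prod.ext
        · rw [hp2, hp2']
        · rw [← hk2, ← hk2', heq]
    exact_mod_cast h2
  refine hcount.trans (hF.trans ?_)
  have h1 : 48 * ((T : ℝ) / q) * S.card ≤ 432 * D / (g * (M : ℝ) ^ 2) := by
    calc 48 * ((T : ℝ) / q) * S.card ≤ 48 * ((3 * D / R) / q) * (3 * c / R) := by
          gcongr
      _ = 432 * D / (g * (M : ℝ) ^ 2) := by
          rw [hRg, hcg]
          have h2 : (g : ℝ) ≠ 0 := by positivity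
          have h3 : (q : ℝ) ≠ 0 := by positivity
          have h4 : (M : ℝ) ≠ 0 := by positivity
          field_simp
          ring
  linarith

/-- the set for one `c` -/
noncomputable def setc (c D M : ℕ) (a₀ b₀ d₀ : ℤ) : Finset (ℤ × ℤ) :=
  (Icc (-(c : ℤ)) c ×ˢ Icc (-(D : ℤ)) D).filter (fun p => p.1 ≡ a₀ [ZMOD M] ∧ p.2 ≡ d₀ [ZMOD M] ∧
    p.1 * p.2 ≡ 1 + c * b₀ [ZMOD (c * M : ℕ)])

theorem setc_le (g q M D : ℕ) (hq : Squarefree q) (hq0 : 0 < q) (hg : 0 < g) (hM : 1 ≤ M)
    (hqR : Nat.Coprime q (g * M)) (hMq : M ≤ q) (hD : g * q ≤ D) (a₀ b₀ d₀ : ℤ) :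
    ((setc (g * q) D M a₀ b₀ d₀).card : ℝ) ≤ 432 * D / (M : ℝ) ^ 2 + 4 * g * EE q M := by
  set R : ℕ := g * M with hRdef
  have hR : 0 < R := by rw [hRdef]; positivity
  set c : ℕ := g * q with hc
  have hRz : (0 : ℤ) < R := by exact_mod_cast hR
  have hgr : (1 : ℝ) ≤ g := by exact_mod_cast hg
  have hMr : (1 : ℝ) ≤ M := by exact_mod_cast hM
  set P : Finset (ℤ × ℤ) := (Ico (0 : ℤ) R ×ˢ Ico (0 : ℤ) R).filter (fun p =>
    p.1 ≡ a₀ [ZMOD M] ∧ p.2 ≡ d₀ [ZMOD M] ∧ p.1 * p.2 ≡ 1 + c * b₀ [ZMOD R]) with hP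
  have hPcard : P.card ≤ g := by
    have h1 : P.card ≤ ((Icc (0 : ℤ) (R - 1)).filter (fun x : ℤ => x ≡ a₀ [ZMOD M])).card := by
      apply Finset.card_le_card_of_injOn Prod.fst
      · intro p hp
        rw [mem_coe, hP, mem_filter, mem_product, mem_Ico] at hp
        rw [mem_coe, mem_filter, mem_Icc]
        exact ⟨⟨hp.1.1.1, by omega⟩, hp.2.1⟩
      · intro p hp p' hp' heq
        rw [mem_coe, hP, mem_filter, mem_product, mem_Ico, mem_Ico] at hp hp'
        obtain ⟨⟨⟨h1, h2⟩, h3, h4⟩, h5, h6, h7⟩ := hp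
        obtain ⟨⟨⟨h1', h2'⟩, h3', h4'⟩, h5', h6', h7'⟩ := hp'
        apply Prod.ext heq
        have h8 : (R : ℤ) ∣ p.1 * (p'.2 - p.2) := by
          rw [← heq] at h7'
          have := (h7.trans h7'.symm).dvd
          have h9 : p.1 * p'.2 - p.1 * p.2 = p.1 * (p'.2 - p.2) := by ring
          rwa [h9] at this
        obtain ⟨k, hk⟩ := (h6.trans h6'.symm).dvd
        have hMz : (M : ℤ) ≠ 0 := by omega
        have h10 : (g : ℤ) ∣ p.1 * k := by
          rw [hk, hRdef] at h8
          push_cast at h8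
          have h11 : (g : ℤ) * M ∣ (p.1 * k) * M := by
            have h12 : p.1 * (M * k) = (p.1 * k) * M := by ring
            rwa [h12] at h8
          exact Int.dvd_of_mul_dvd_mul_right hMz h11
        have h13 : IsCoprime (g : ℤ) p.1 := by
          obtain ⟨m, hm⟩ := h7.dvd
          refine ⟨M * m - q * b₀, p.2, ?_⟩
          rw [hRdef] at hm
          rw [hc] at hm
          push_cast at hm
          linear_combination (-1) * hm
        have h14 : (g : ℤ) ∣ k := h13.dvd_of_dvd_mul_left h10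
        obtain ⟨k', hk'⟩ := h14
        have h15 : p'.2 - p.2 = R * k' := by
          rw [hk, hk', hRdef]; push_cast; ring
        have h16 : k' = 0 := by
          by_contra hne
          rcases lt_or_gt_of_ne hne with h | h
          · have : (R : ℤ) * k' ≤ R * (-1) := by
              apply mul_le_mul_of_nonneg_left (by omega) hRz.le
            omega
          · have : (R : ℤ) * 1 ≤ R * k' := by
              apply mul_le_mul_of_nonneg_left (by omega) hRz.le
            omega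
        rw [h16, mul_zero] at h15
        omega
    refine h1.trans ?_
    have h2 := card_prog M (by omega) a₀ 0 (R - 1) (by omega)
    have h3 : (((R : ℤ) - 1 : ℤ) : ℝ) - ((0 : ℤ) : ℝ) = g * M - 1 := by
      rw [hRdef]; push_cast; ring
    rw [h3] at h2
    have h4 : ((g : ℝ) * M - 1) / M + 1 < g + 1 := by
      have : ((g : ℝ) * M - 1) / M = g - 1 / M := by field_simp
      rw [this]
      have : 0 < 1 / (M : ℝ) := by positivity
      linarith
    have h5 := lt_of_le_of_lt h2 h4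
    have h6 : ((Icc (0 : ℤ) (R - 1)).filter (fun x : ℤ => x ≡ a₀ [ZMOD M])).card < g + 1 := by
      exact_mod_cast h5
    omega
  have hfib : (setc c D M a₀ b₀ d₀).card =
      ∑ x ∈ P, ((setc c D M a₀ b₀ d₀).filter
        (fun p => ((p.1 % (R : ℤ), p.2 % (R : ℤ)) : ℤ × ℤ) = x)).card := by
    apply Finset.card_eq_sum_card_fiberwise
    intro p hp
    rw [mem_coe] at hp
    unfold setc at hp
    rw [mem_filter, mem_product] at hp
    obtain ⟨-, h1, h2, h3⟩ := hp
    rw [mem_coe, hP, mem_filter, mem_product, mem_Ico, mem_Ico]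
    have hMR : (M : ℤ) ∣ R := by rw [hRdef]; push_cast; exact dvd_mul_left _ _
    have hRc : (R : ℤ) ∣ ((c * M : ℕ) : ℤ) := by
      rw [hRdef, hc]; push_cast; exact ⟨q, by ring⟩
    have e1 : p.1 % (R : ℤ) ≡ p.1 [ZMOD R] := Int.mod_modEq _ _
    have e2 : p.2 % (R : ℤ) ≡ p.2 [ZMOD R] := Int.mod_modEq _ _
    refine ⟨⟨⟨Int.emod_nonneg _ hRz.ne', Int.emod_lt_of_pos _ hRz⟩,
      Int.emod_nonneg _ hRz.ne', Int.emod_lt_of_pos _ hRz⟩, ?_, ?_, ?_⟩
    · exact (e1.of_dvd hMR).trans h1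
    · exact (e2.of_dvd hMR).trans h2
    · exact (e1.mul e2).trans (h3.of_dvd hRc)
  have hbd : ∀ x ∈ P, (((setc c D M a₀ b₀ d₀).filter
        (fun p => ((p.1 % (R : ℤ), p.2 % (R : ℤ)) : ℤ × ℤ) = x)).card : ℝ) ≤
        432 * D / (g * (M : ℝ) ^ 2) + 4 * EE q M := by
    intro x _
    refine le_trans ?_ (cls_le g q M D hq hq0 hg hM hqR hMq hD x.1 x.2)
    have : (setc c D M a₀ b₀ d₀).filter
        (fun p => ((p.1 % (R : ℤ), p.2 % (R : ℤ)) : ℤ × ℤ) = x) ⊆
        cls ((g * q : ℕ) : ℤ) D q (g * M) x.1 x.2 := by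
      intro p hp
      rw [mem_filter] at hp
      obtain ⟨hp1, hp2⟩ := hp
      unfold setc at hp1
      rw [mem_filter] at hp1
      unfold cls
      rw [mem_filter]
      refine ⟨hp1.1, ?_, ?_, ?_⟩
      · rw [← hp2, ← hRdef]; exact (Int.mod_modEq _ _).symm
      · rw [← hp2, ← hRdef]; exact (Int.mod_modEq _ _).symm
      · have h1 := hp1.2.2.2
        have hqc : (q : ℤ) ∣ ((c * M : ℕ) : ℤ) := by
          rw [hc]; push_cast; exact ⟨g * M, by ring⟩
        refine (h1.of_dvd hqc).trans ?_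
        apply Int.ModEq.symm
        rw [Int.modEq_iff_dvd]
        rw [hc]; push_cast
        exact ⟨g * b₀, by ring⟩
    exact_mod_cast Finset.card_le_card this
  rw [hfib]
  push_cast
  refine (Finset.sum_le_sum hbd).trans ?_
  rw [Finset.sum_const, nsmul_eq_mul]
  have hE0 : 0 ≤ EE q M := by
    unfold EE
    have hlogq : 0 ≤ Real.log q := Real.log_nonneg (by exact_mod_cast hq0)
    positivity
  calc (P.card : ℝ) * (432 * D / (g * (M : ℝ) ^ 2) + 4 * EE q M)
      ≤ g * (432 * D / (g * (M : ℝ) ^ 2) + 4 * EE q M) := by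
        apply mul_le_mul_of_nonneg_right
        · exact_mod_cast hPcard
        · positivity
    _ = 432 * D / (M : ℝ) ^ 2 + 4 * g * EE q M := by
        have : (g : ℝ) ≠ 0 := by positivity
        field_simp

end Pool.Agent.W591.GM
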